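import Pool.Agent.Helper53.UV.Prg

/-!
# Fast machines: definitions
-/

namespace Pool.Agent.Helper53.UV

open Pool.Agent.Helper65.LinSpace (TM)
open Pool.Agent.Helper81.RP (Ins AcceptsAt conf)
open Pool.Agent.Helper81.RR (ld)
open Pool.Agent.Helper81.IC (Served)

/-- The program `P` accepts the word `v`, with the second word `y`, in at most
`C (m + 1) ^ 2 / (log₂ m + 1) ^ 5` steps, all numbers in the registers being less than `(m + 2) ^ a`. -/
def FastTime (P : List Ins) (a : ℕ) (C : ℝ) (m : ℕ) (v y : List Bool) : Prop :=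
  ∃ t : ℕ, AcceptsAt P v y t ∧ (∀ u ≤ t, ∀ i, (conf P v y u).2 i < (m + 2) ^ a) ∧
    (t : ℝ) ≤ C * ((m : ℝ) + 1) ^ 2 / ((Nat.log 2 m : ℝ) + 1) ^ 5

/-- The program `P` accepts the word `v`, with the second word `y`, at some time `t`, all numbers in the
registers being less than `2 ^ s` up to this time and the numbers of the registers which are loaded
less than `2 ^ b`, and its loads are served by a cache of `k` lines of `B` registers, into which `x`
lines are brought, where `⌊log₂ m⌋ + 1 ≤ s` and, for `l = b + ⌊log₂ m⌋ + 1`,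
`x B s l ^ 4 ≤ C (m + 1) ^ 2` and `k B s l ^ 4 ≤ C (m + 1)`. The time is not bounded, and the program
stores without the cache. -/
def FastCache (P : List Ins) (C : ℝ) (m : ℕ) (v y : List Bool) : Prop :=
  ∃ t s b B k x : ℕ, Nat.log 2 m + 1 ≤ s ∧ 0 < B ∧ 0 < k ∧ AcceptsAt P v y t ∧
    (∀ u ≤ t, ∀ i, (conf P v y u).2 i < 2 ^ s) ∧
    (∀ u ≤ t, ∀ z, ld P (conf P v y u) = some z → z < 2 ^ b) ∧ Served P v y B k x t ∧
    (x : ℝ) * B * s * ((b : ℝ) + ((Nat.log 2 m : ℝ) + 1)) ^ 4 ≤ C * ((m : ℝ) + 1) ^ 2 ∧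
    (k : ℝ) * B * s * ((b : ℝ) + ((Nat.log 2 m : ℝ) + 1)) ^ 4 ≤ C * ((m : ℝ) + 1)

/-- The program `P` accepts the word `v`, with the second word `y`, at a time `t < 2 ^ (q s)`, all
numbers in the registers being less than `2 ^ s` up to this time and the numbers of the registers
which are loaded or stored less than `2 ^ b`, in blocks of `q` registers and windows of `q` letters
with `x` changes, where `⌊log₂ m⌋ + 1 ≤ s` and, for `l = b + ⌊log₂ m⌋ + 1`,
`x s l ^ 4 ≤ C (m + 1) ^ 2` and `q s l ^ 4 ≤ C (m + 1)`. -/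
def FastBlocks (P : List Ins) (C : ℝ) (m : ℕ) (v y : List Bool) : Prop :=
  ∃ t s b q x : ℕ, Nat.log 2 m + 1 ≤ s ∧ 0 < q ∧ AcceptsAt P v y t ∧ t < 2 ^ (q * s) ∧
    (∀ u ≤ t, ∀ i, (conf P v y u).2 i < 2 ^ s) ∧
    (∀ u ≤ t, ∀ z, regA P (conf P v y u) = some z → z < 2 ^ b) ∧ InBlocks P v y q x t ∧
    (x : ℝ) * s * ((b : ℝ) + ((Nat.log 2 m : ℝ) + 1)) ^ 4 ≤ C * ((m : ℝ) + 1) ^ 2 ∧
    (q : ℝ) * s * ((b : ℝ) + ((Nat.log 2 m : ℝ) + 1)) ^ 4 ≤ C * ((m : ℝ) + 1)

/-- The machines: programs of random access machines, and Turing machines with a read-only input tape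
and one work tape. -/
inductive Machine : Type 1
  | prog (P : List Ins)
  | tm (M : TM 1)

namespace Machine

/-- The machine accepts the word `v`, with the second word `y`; the input word of a Turing machine is
`v y`. -/
def Acc : Machine → List Bool → List Bool → Prop
  | prog P, v, y => ∃ t, AcceptsAt P v y t
  | tm M, v, y => ∃ t, Pool.Agent.Helper31.TMS.AcceptsAt M (v ++ y) t

/-- The machine accepts the word `v`, with the second word `y`, within the bounds for the number `m`: a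
program in `C m ^ 2 / log ^ 5 m` steps, or with a small cache, or in small blocks; a Turing machine in
at most `C (m + 1) ^ 3 / (log₂ m + 1) ^ 9` steps. -/
def Fast : Machine → ℕ → ℝ → ℕ → List Bool → List Bool → Prop
  | prog P, a, C, m, v, y => FastTime P a C m v y ∨ FastCache P C m v y ∨ FastBlocks P C m v y
  | tm M, _, C, m, v, y => ∃ t : ℕ, Pool.Agent.Helper31.TMS.AcceptsAt M (v ++ y) t ∧
      (t : ℝ) ≤ C * ((m : ℝ) + 1) ^ 3 / ((Nat.log 2 m : ℝ) + 1) ^ 9

end Machine

end Pool.Agent.Helper53.UV
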