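import Pool.Agent.Helper53.UV.Reg

/-!
# PROJECT UR2 (MP_c578c8_lc): the simulation
-/

namespace Pool.Agent.Helper53.UV

open Pool.Agent.Helper65.LinSpace Pool.Agent.Helper78.Mpc
open Pool.Agent.Helper1.TE (USPACE)
open Pool.Agent.Helper81.Gen4 (Q)
open Pool.Agent.Helper81.RP (Ins conf lett)
open Pool.Agent.Helper92.KR (Coded)
open Pool.Agent.Helper92.RE (LD InTime)
open Pool.Agent.Helper31.OL (OL orc)
open Pool.Agent.Helper88.URE (OrcOK Sim sim_pad sim_orc q_zero)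
open Pool.Agent.Helper31.TMS (AcceptsAt)

/-- The empty word. -/
def nilD : LD where
  len _ := 0
  pos _ _ := 0
  lt _ _ _ := lett none
  ls_len := LS.const 0
  ls_pos := LS.const 0
  ls_lt := LS.const _

theorem nilD_is : nilD.Is fun _ => [] := fun w => ⟨rfl, fun u => rfl⟩

/-- The conclusion of OLM. -/
def OlmOK : Prop := ∀ pm : Qn → Qn, LS pm → ∀ F : ℕ → ℕ, OL (accPm pm) F →
  {w | F (num w) ≠ 0} ∈ USPACE (fun n => (n : ℝ)) ∧
  {w | F (num w) ≠ 0}ᶜ ∈ USPACE (fun n => (n : ℝ))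

/-- The simulation of programs. -/
theorem simP (hO : OlmOK) (hN : LS NFV) (h : FnvOK) : Sim :=
  sim_orc (acc := accV) (fun F hF => hO id LS.id F hF) hN (coded_prg h)

/-- The simulation of Turing machines with one work tape. -/
theorem simT (hO : OlmOK) (hN : LS NFV) (h : FnvOK) (hCM : GoalCMB) (hT : TmcOK) (M : TM 1)
    (C : ℝ) : ∃ (B : Set (List Bool)) (m₀ : ℕ),
      B ∈ USPACE (fun n => (n : ℝ)) ∧ Bᶜ ∈ USPACE (fun n => (n : ℝ)) ∧
      ∀ m : ℕ, m₀ ≤ m → ∀ w : List Bool,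
        (List.replicate m true ++ false :: w ∈ B → ∃ t, AcceptsAt M w t) ∧
        ((∃ t : ℕ, AcceptsAt M w t ∧ (t : ℝ) ≤ T3 C m) →
          List.replicate m true ++ false :: w ∈ B) := by
  have hOr : OrcOK accV := fun F hF => hO id LS.id F hF
  obtain ⟨B, m₀, g1, g2, g3⟩ := sim_pad hOr hN (coded_tm h hCM hT nilD_is M C) 0
  refine ⟨B, m₀, g1, g2, fun m hm w => ?_⟩
  obtain ⟨g4, g5⟩ := g3 m hm w
  rw [Nat.zero_mul, q_zero, List.append_nil] at g4 g5
  rw [List.nil_append, List.length_replicate] at g5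
  rw [List.nil_append] at g4
  exact ⟨g4, g5⟩

end Pool.Agent.Helper53.UV
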