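import Pool.Agent.Helper53.UR.Fin
import Pool.Agent.Helper53.UV.Sim
import Pool.Agent.Helper13.UV.PRA
import Pool.Agent.Helper26.UV.LMV
import Pool.Agent.Helper31.UV.OLM
import Pool.Agent.Helper34.UV.SQS
import Pool.Agent.Helper36.UV.TLS
import Pool.Agent.Helper45.UV.TRE
import Pool.Agent.Helper46.UV.ETB
import Pool.Agent.Helper47.UV.FNV
import Pool.Agent.Helper52.UV.VMC
import Pool.Agent.Helper57.UV.PSS
import Pool.Agent.Helper57.UV.AVG
import Pool.Agent.Helper62.UV.LPR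
import Pool.Agent.Helper84.UV.DGS
import Pool.Agent.Helper98.UV.ASV

/-!
# PROJECT UR2 (MP_c578c8_lc): assembly
-/

namespace Pool.Agent.Helper53.UV

open Pool.Agent.Helper65.LinSpace (LS)

theorem dgs : GoalDGS := Pool.Agent.Helper84.UV.gDGS

theorem passOK : PassOK := Pool.Agent.Helper57.UV.gPSS Pool.Agent.Helper66.UR.gKND

theorem seqOK : SeqOK := Pool.Agent.Helper34.UV.gSQS Pool.Agent.Helper66.UR.gKND dgs

theorem tree : ∀ (m : RM) (e K b c : ℕ), TOk m e K b c →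
    Pool.Agent.Helper53.CTG.ev (tb m e (K * (e + 3)) b) (e + 3) c (K * (e + 3)) 1 0 =
      (m.conf (K * 2 ^ e)).1 :=
  (Pool.Agent.Helper45.UV.gTRE Pool.Agent.Helper66.UR.gKND dgs passOK seqOK).2

theorem vmcOK : VMC_stmt := Pool.Agent.Helper52.UV.gVMC

theorem parOK : ParOK := Pool.Agent.Helper13.UV.gPRA vmcOK

theorem lsParOK : LSParOK := Pool.Agent.Helper62.UV.gLPR parOK

theorem lsmOK : LSMOK := Pool.Agent.Helper26.UV.gLMV lsParOK

theorem fnvOK : FnvOK :=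
  Pool.Agent.Helper47.UV.gFNV vmcOK tree parOK Pool.Agent.Helper98.UV.gASV

theorem olmOK : OlmOK :=
  Pool.Agent.Helper31.UV.gOLM @Pool.Agent.Helper53.UR.genOK Pool.Agent.Helper46.UV.gETB.2
    parOK lsParOK (Pool.Agent.Helper36.UV.gTLS parOK lsParOK lsmOK)

theorem hubOK : HubOK := hub_of Pool.Agent.Helper31.UR.qHardOL lsParOK.1 olmOK

theorem avg : GoalAVG := Pool.Agent.Helper57.UV.gAVG

end Pool.Agent.Helper53.UV
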