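import Pool.Agent.Helper53.UV.Par
import Pool.Agent.Helper92.RE.TmB
import Pool.Agent.Helper81.UR.Prg

/-!
# PROJECT UR2 (MP_c578c8_lc): goals, part E (cell machines)

A cell machine (`CM`) has a state `κ`, a memory of cells, and reads virtual letters. Turing machines with
one work tape (on the words `F w ++ y`) and programs of random access machines are cell machines. It is
turned into a machine with a memory of blocks (`BM`): the blocks are the sets of the cells `z` with the
same `(z + o) / D`, the windows the sets of the virtual addresses `u` with the same `(u + o') / D`; one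
read of a block is made for all steps up to the next change of the block or of the window.
-/

namespace Pool.Agent.Helper53.UV

open Pool.Agent.Helper65.LinSpace Pool.Agent.Helper78.Mpc
open Pool.Agent.Helper65.BR (BM)
open Pool.Agent.Helper81.RP (lett)
open Pool.Agent.Helper92.RE (LD InTime)

/-- A machine with a memory of cells. -/
structure CM where
  /-- `ad n u` is the address, in the input word `w` of length `n` and in the second word `y`, of the
  letters on which the virtual letter `u` depends -/
  ad : ℕ → ℕ → ℕ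
  /-- `lf n u a b` is the virtual letter `u`, if `a`, `b` are the codes of these letters -/
  lf : ℕ → ℕ → ℕ → ℕ → ℕ
  /-- the state at the start -/
  k0 : ℕ → ℕ
  /-- the cell which is read in the state -/
  cel : ℕ → ℕ
  /-- the virtual address which is read in the state -/
  adr : ℕ → ℕ
  /-- the new state for the state, the virtual letter and the content of the cell -/
  nx : ℕ → ℕ → ℕ → ℕ
  /-- the new content of the cell -/
  wr : ℕ → ℕ → ℕ → ℕ
  /-- not `0` for accepting states -/
  acc : ℕ → ℕ
  hlf : ∀ n u a b, lf n u a b < 16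
  ls_ad : LS (fun z : ℕ × ℕ => ad z.1 z.2)
  ls_lf : LS (fun z : ℕ × ℕ × ℕ × ℕ => lf z.1 z.2.1 z.2.2.1 z.2.2.2)
  ls_k0 : LS k0
  ls_cel : LS cel
  ls_adr : LS adr
  ls_nx : LS (fun z : ℕ × ℕ × ℕ => nx z.1 z.2.1 z.2.2)
  ls_wr : LS (fun z : ℕ × ℕ × ℕ => wr z.1 z.2.1 z.2.2)
  ls_acc : LS acc

namespace CM

variable (M : CM)

/-- The virtual letter `u`. -/
def vl (w y : List Bool) (u : ℕ) : ℕ :=
  M.lf w.length u (lett w[M.ad w.length u]?) (lett y[M.ad w.length u]?)

/-- One step. -/
def step (w y : List Bool) (c : ℕ × (ℕ → ℕ)) : ℕ × (ℕ → ℕ) :=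
  (M.nx c.1 (M.vl w y (M.adr c.1)) (c.2 (M.cel c.1)),
    Function.update c.2 (M.cel c.1) (M.wr c.1 (M.vl w y (M.adr c.1)) (c.2 (M.cel c.1))))

/-- The state and the contents of the cells after `t` steps. -/
def conf (M : CM) (w y : List Bool) : ℕ → ℕ × (ℕ → ℕ)
  | 0 => (M.k0 w.length, fun _ => 0)
  | t + 1 => M.step w y (M.conf w y t)

/-- The state after `t` steps accepts. -/
def AcceptsAt (w y : List Bool) (t : ℕ) : Prop := M.acc (M.conf w y t).1 ≠ 0

/-- The number of the steps before the time `r` which change the block or the window. -/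
noncomputable def chg (w y : List Bool) (D o o' r : ℕ) : ℕ :=
  {t : ℕ | t < r ∧ ((M.cel (M.conf w y (t + 1)).1 + o) / D ≠ (M.cel (M.conf w y t).1 + o) / D ∨
    (M.adr (M.conf w y (t + 1)).1 + o') / D ≠ (M.adr (M.conf w y t).1 + o') / D)}.ncard

/-- Bounds up to the time `r`: states are smaller than `2 ^ s`, names of cells smaller than `2 ^ m`,
contents smaller than `2 ^ h`, virtual addresses, and addresses in the windows, smaller than `2 ^ s`. -/
def Fits (w y : List Bool) (D o o' r s m h : ℕ) : Prop :=
  ∀ t ≤ r, (M.conf w y t).1 < 2 ^ s ∧ M.cel (M.conf w y t).1 + o < 2 ^ m ∧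
    M.adr (M.conf w y t).1 + o' + D < 2 ^ s ∧
    (∀ u ≤ M.adr (M.conf w y t).1 + o' + D, M.ad w.length u < 2 ^ s) ∧
    ∀ z, (M.conf w y t).2 z < 2 ^ h

/-- The machine accepts at a time `r < 2 ^ k`, with blocks of `D` cells and windows of `D` virtual
letters and at most `x` changes. For `l = m + ⌊log₂ n⌋ + 1`: `x (s + 1) l ^ 4 ≤ C (n + 1) ^ 2` and
`(D (h + 1) + s + k) l ^ 4 ≤ C (n + 1)`. -/
def Within (C : ℝ) (w y : List Bool) : Prop :=
  ∃ (D o o' r s m h k : ℕ), 0 < D ∧ M.AcceptsAt w y r ∧ r < 2 ^ k ∧ w.length < 2 ^ s ∧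
    o < 2 ^ s ∧ M.Fits w y D o o' r s m h ∧
    (M.chg w y D o o' r : ℝ) * ((s : ℝ) + 1) *
      ((m : ℝ) + ((Nat.log 2 w.length : ℝ) + 1)) ^ 4 ≤ C * ((w.length : ℝ) + 1) ^ 2 ∧
    ((D : ℝ) * ((h : ℝ) + 1) + s + k) * ((m : ℝ) + ((Nat.log 2 w.length : ℝ) + 1)) ^ 4 ≤
      C * ((w.length : ℝ) + 1)

end CM

/-- CMB (helper81, helper31). The machine with a memory of blocks. Its state is the word
`[acc] ++ sd u ++ big`, where `u` has a fixed length `≥ 3 s` (it codes the phase and two states `κ₁, κ₂` of
the cell machine), and `big` codes the parameters (`2 ^ (D (h + 4) + k)`, `D, s, h, k, o, o'`), `n`, and the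
letters of the window which are already loaded. Phase 0: compute `n = |w|`; 1: load the window of
`κ₁` (silent steps, one virtual letter each); 2: read the block of `κ₁`: `κ₂` is the state after the steps
in the block and in the window, up to the first change (or acceptance), at most `2 ^ k` steps
(`nrec`; every step checks the bounds, failure is the number `0`); `big` does not change; 3: the new
state (in which the block of `κ₁` is written: the same computation for its content); the next step is
silent and gives phase 1 with `κ₁ := κ₂`. So a read changes only the first `g = 1 + |sd u|` bits, there are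
at most `chg + 1` reads, `g ≤ K (s + 1)`, contents have `D h` bits, states `K (D (h + 1) + s + k)` bits (with the
window `4 D` bits). Sound for all parameters. -/
def GoalCMB : Prop := ∀ M : CM, ∃ A : BM,
  (∀ w y : List Bool, (∃ p r, A.AcceptsAt w y p r) → ∃ t, M.AcceptsAt w y t) ∧
  ∀ C : ℝ, ∃ C' : ℝ, ∀ w y : List Bool, M.Within C w y → WithinV A C' w y

/-- AVG (the offset). `∑ o < D` of the numbers is `∑ t < r` of the number of `o < D` such that there is a
multiple of `D` between `f t + o + 1` and `f (t + 1) + o` (or the other way round), which is at most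
`|f (t + 1) - f t| ≤ 2`. So for some `o < D` the number is at most `2 r / D`. -/
def GoalAVG : Prop := ∀ (f : ℕ → ℕ) (D r : ℕ), 0 < D →
  (∀ t < r, f (t + 1) ≤ f t + 2 ∧ f t ≤ f (t + 1) + 2) →
  ∃ o < D, {t : ℕ | t < r ∧ (f (t + 1) + o) / D ≠ (f t + o) / D}.ncard * D ≤ 2 * r

/-- TMC (helper92). Turing machines with one work tape on the words `F w ++ y` are cell machines: the
state is `(state, position of the input head, position of the work head, n)`, the cells are the cells
of the tape (`2 z` for `z ≥ 0`, `-2 z - 1` for `z < 0`), contents are codes of symbols, `0` for the blank; a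
virtual letter is a letter of `F w ++ y` (`adr`, `letL` of `Helper92.RE`). The positions of the heads are at
most `t + 1`, so there is no condition for the length of `F w ++ y`. Put `L = ⌊log₂ n⌋ + 1`,
`D = n / L ^ 4 + 1`; AVG for the cells (steps of at most `2`) and for the input head gives `o, o' < D` with
`chg ≤ 4 t / D`; `s, m, k ≤ K L`, `h` constant. `t L ^ 9 ≤ C (n + 1) ^ 3` gives the first bound. -/
def GoalTMC : Prop := GoalAVG → ∀ (M : TM 1) {D : LD} {F : List Bool → List Bool}, D.Is F →
  ∃ N : CM, (∀ w y t, N.AcceptsAt w y t → ∃ t', Pool.Agent.Helper31.TMS.AcceptsAt M (F w ++ y) t') ∧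
    ∀ C : ℝ, ∃ C' : ℝ, ∀ (w y : List Bool) (t : ℕ),
      Pool.Agent.Helper31.TMS.AcceptsAt M (F w ++ y) t →
      (t : ℝ) ≤ C * ((w.length : ℝ) + 1) ^ 3 / ((Nat.log 2 w.length : ℝ) + 1) ^ 9 →
      N.Within C' w y

end Pool.Agent.Helper53.UV
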