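import Pool.Agent.Helper53.UV.Sim

/-!
# PROJECT UR2 (MP_c578c8_lc): the union of two bounds
-/

namespace Pool.Agent.Helper53.UV

open Pool.Agent.Helper65.LinSpace Pool.Agent.Helper78.Mpc
open Pool.Agent.Helper1.TE (USPACE)
open Pool.Agent.Helper81.Gen4 (Q)
open Pool.Agent.Helper31.Gen5 (Hard)
open Pool.Agent.Helper31.MHS (q_take drp ls_drp)
open Pool.Agent.Helper92.KR (Coded par Coded.even Coded.odd)
open Pool.Agent.Helper53.UR (QHardOL)
open Pool.Agent.Helper88.URE (OrcOK)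
open Pool.Agent.Helper31.OL (OL orc)

/-- Two codes together. -/
def accW (e x y T : ℕ) : ℕ :=
  accV (ifz (lt01 T (NFV x)) (Nat.unpair e).2 (Nat.unpair e).1) x y
    (ifz (lt01 T (NFV x)) (T - NFV x) T)

/-- The number of the codes of the bounds. -/
def NFW (x : ℕ) : ℕ := 2 * NFV x

theorem accW_left (e₁ e₂ : ℕ) {x y T : ℕ} (h : T < NFV x) :
    accW (Nat.pair e₁ e₂) x y T = accV e₁ x y T := by
  have h1 : lt01 T (NFV x) = 1 := if_pos h
  unfold accW
  rw [h1, Nat.unpair_pair]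
  rfl

theorem accW_right (e₁ e₂ : ℕ) {x y T : ℕ} (h : NFV x ≤ T) :
    accW (Nat.pair e₁ e₂) x y T = accV e₂ x y (T - NFV x) := by
  have h1 : lt01 T (NFV x) = 0 := if_neg (by omega)
  unfold accW
  rw [h1, Nat.unpair_pair]
  rfl

/-- The union of two bounds. -/
theorem Coded.union {Acc G₁ G₂ : List Bool → List Bool → Prop} (h₁ : Coded accV NFV Acc G₁)
    (h₂ : Coded accV NFV Acc G₂) : Coded accW NFW Acc (fun w y => G₁ w y ∨ G₂ w y) := by
  obtain ⟨e₁, n₁, h₁⟩ := h₁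
  obtain ⟨e₂, n₂, h₂⟩ := h₂
  refine ⟨Nat.pair e₁ e₂, max n₁ n₂, fun w y hw => ⟨fun T hT hne => ?_, fun h => ?_⟩⟩
  · have hT' : T < 2 * NFV (num w) := hT
    rcases lt_or_ge T (NFV (num w)) with h | h
    · rw [accW_left e₁ e₂ h] at hne
      exact (h₁ w y ((le_max_left _ _).trans hw)).1 T h hne
    · rw [accW_right e₁ e₂ h] at hne
      exact (h₂ w y ((le_max_right _ _).trans hw)).1 _ (by omega) hne
  · rcases h with h | h
    · obtain ⟨T, hT, hne⟩ := (h₁ w y ((le_max_left _ _).trans hw)).2 h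
      refine ⟨T, ?_, ?_⟩
      · show T < 2 * NFV (num w)
        omega
      · rwa [accW_left e₁ e₂ hT]
    · obtain ⟨T, hT, hne⟩ := (h₂ w y ((le_max_right _ _).trans hw)).2 h
      refine ⟨NFV (num w) + T, ?_, ?_⟩
      · show NFV (num w) + T < 2 * NFV (num w)
        omega
      · rw [accW_right e₁ e₂ (Nat.le_add_right _ _), Nat.add_sub_cancel_left]
        exact hne

theorem Coded.toW {Acc G : List Bool → List Bool → Prop} (h : Coded accV NFV Acc G) :
    Coded accW NFW Acc G := by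
  have h1 := Coded.union h h
  simpa using h1

/-- The questions of `accW`. -/
def pmW (z : Qn) : Qn :=
  (ifz (lt01 z.2.2.2 (NFV z.2.1)) (Nat.unpair z.1).2 (Nat.unpair z.1).1, z.2.1, z.2.2.1,
    ifz (lt01 z.2.2.2 (NFV z.2.1)) (z.2.2.2 - NFV z.2.1) z.2.2.2)

theorem ls_pmW (hN : LS NFV) : LS pmW := by
  have h0 : LS (fun z : Qn => z.1) := LS.fst
  have h1 : LS (fun z : Qn => z.2.1) := by fun_prop
  have h2 : LS (fun z : Qn => z.2.2.1) := by fun_prop
  have h3 : LS (fun z : Qn => z.2.2.2) := by fun_prop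
  have h4 : LS (fun z : Qn => NFV z.2.1) := LS.comp (g := NFV) hN h1
  have h5 := LS.lt01 h3 h4
  have h6 := LS.ifz h5 (LS.unpair2 h0) (LS.unpair1 h0)
  have h7 := LS.ifz h5 (LS.sub h3 h4) h3
  exact LS.prodMk h6 (LS.prodMk h1 (LS.prodMk h2 h7))

/-- The questions of `par accW c`. -/
def pmP (c : ℕ) (z : Qn) : Qn :=
  (z.1 / 2, z.2.1, ifz (z.1 % 2) z.2.2.1 (drp (3 * c) z.2.1 z.2.2.1), z.2.2.2)

theorem ls_pmP (c : ℕ) : LS (pmP c) := ls_pmV c

/-- The conclusion of HUB for `accW`. -/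
def HubW : Prop := ∀ c : ℕ, 0 < c → ∃ L : Set (List Bool), L ∈ USPACE (fun n => (n : ℝ)) ∧
  Lᶜ ∈ USPACE (fun n => (n : ℝ)) ∧ ∀ Acc Good : List Bool → List Bool → Prop,
    Coded accW NFW Acc Good →
      Hard L c Acc Good ∧ Hard L c (fun w α => Q (c * w.length) fun v => Acc w (α ++ v))
        (fun w α => Q (c * w.length) fun v => Good w (α ++ v))

theorem hubW_of (hQ : QHardOL) (hN : LS NFV) (hO : OlmOK) : HubW := by
  intro c hc
  have hNW : LS NFW := LS.mul (LS.const 2) hN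
  obtain ⟨F, h1, h2⟩ := hQ (par accW c) NFW hNW c c hc
  have h3 : OL (accPm fun z => pmW (pmP c z)) F := h1
  obtain ⟨h4, h5⟩ := hO _ (LS.comp (g := pmW) (ls_pmW hN) (ls_pmP c)) F h3
  refine ⟨{w | F (num w) ≠ 0}, h4, h5, fun Acc Good hC => ⟨?_, h2 _ _ (hC.even c)⟩⟩
  exact (h2 _ _ (hC.odd c)).mono (fun w α h => (q_take c w α fun y => Acc w y).1 h)
    (fun w α h => (q_take c w α fun y => Good w y).2 h)

theorem orcW (hN : LS NFV) (hO : OlmOK) : OrcOK accW := fun F hF => by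
  have h3 : OL (accPm pmW) F := hF
  exact hO _ (ls_pmW hN) F h3

end Pool.Agent.Helper53.UV
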