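import Pool.Agent.Helper53.UV.Fast
import Pool.Agent.Helper53.UV.Union

/-!
# PROJECT UR2 (MP_c578c8_lc): the theorem
-/

namespace Pool.Agent.Helper53.UV

open Pool.Agent.Helper65.LinSpace Pool.Agent.Helper78.Mpc
open Pool.Agent.Helper1.TE (USPACE)
open Pool.Agent.Helper81.Gen4 (Q Q_mono)
open Pool.Agent.Helper31.Gen5 (Hard)
open Pool.Agent.Helper81.RP (Ins conf AcceptsAt)
open Pool.Agent.Helper92.KR (Coded)
open Pool.Agent.Helper92.RE (enc Universal NonUniversal LD Loc half_of_hard finite_of_hard InTime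
  hard_adv)
open Pool.Agent.Helper81.UR (WithinP prg_within prg_sound)
open Pool.Agent.Helper31.SB (idD idD_is)
open Pool.Agent.Helper53.UR (RedOK WithinU within_time)
open Pool.Agent.Helper88.URE (OrcOK sim_pad q_zero swp swi get_swp conf_swp acc_swp ld_swp)

theorem Coded.mono {acc : ℕ → ℕ → ℕ → ℕ → ℕ} {N : ℕ → ℕ} {Acc G G' : List Bool → List Bool → Prop}
    (h : Coded acc N Acc G) (h' : ∀ w y, G' w y → G w y) : Coded acc N Acc G' := by
  obtain ⟨e, n₀, h⟩ := h
  exact ⟨e, n₀, fun w y hw => ⟨(h w y hw).1, fun hG => (h w y hw).2 (h' w y hG)⟩⟩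

theorem FastCache.mono {P : List Ins} {C C' : ℝ} (h : C ≤ C') {m : ℕ} {v y : List Bool}
    (h1 : FastCache P C m v y) : FastCache P C' m v y := by
  obtain ⟨t, s, b, B, k, x, a1, a2, a3, a4, a5, a6, a7, a8, a9⟩ := h1
  exact ⟨t, s, b, B, k, x, a1, a2, a3, a4, a5, a6, a7,
    a8.trans (mul_le_mul_of_nonneg_right h (by positivity)),
    a9.trans (mul_le_mul_of_nonneg_right h (by positivity))⟩

/-- Programs on the words `F w`, with all bounds. -/
theorem coded_fast (h : FnvOK) (hCM : GoalCMB) (hPR : GoalPRC) {D : LD}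
    {F : List Bool → List Bool} (hF : D.Is F) {b₀ : ℕ}
    (hlen : ∀ w, (F w).length ≤ b₀ * (w.length + 1)) (hle : ∀ w, w.length ≤ (F w).length)
    (P : List Ins) (a : ℕ) (C : ℝ) :
    Coded accW NFW (fun w y => (Machine.prog P).Acc (F w) y)
      (fun w y => (Machine.prog P).Fast a C (F w).length (F w) y) := by
  obtain ⟨C', hC'⟩ := within_time P a C
  have h1 := coded_prgF h hF hlen hle P (max C C')
  obtain ⟨N, g1, g2⟩ := hPR P hF
  obtain ⟨A, g3, g4⟩ := hCM N
  obtain ⟨C₁, g5⟩ := g2 b₀ C hlen hle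
  obtain ⟨C₂, g6⟩ := g4 C₁
  have h2 : Coded accV NFV (fun w y => ∃ t, AcceptsAt P (F w) y t)
      (fun w y => FastBlocks P C (F w).length (F w) y) := by
    obtain ⟨e, n₀, he⟩ := (h A C₂).2
    refine ⟨e, n₀, fun w y hw => ⟨fun T hT hne => ?_, fun hB => ?_⟩⟩
    · obtain ⟨t, ht⟩ := g3 w y ((he w y hw).1 T hT hne)
      exact g1 w y t ht
    · exact (he w y hw).2 (g6 w y (g5 w y hB))
  refine Coded.mono (Coded.union h1 h2) ?_
  rintro w y (⟨t, ht, hn, htC⟩ | hc | hb)
  · have h3 : FastCache P C' (F w).length (F w) y := hC' _ _ t ht hn htC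
    exact Or.inl (h3.mono (le_max_right _ _))
  · exact Or.inl (hc.mono (le_max_left _ _))
  · exact Or.inr hb

/-- The bounds for the program which reads the second word only. -/
theorem fast_swp {P : List Ins} {a : ℕ} {C : ℝ} {m : ℕ} {w : List Bool}
    (h : (Machine.prog P).Fast a C m w []) :
    (Machine.prog (swp P)).Fast a C m (List.replicate m true) w := by
  have hreg : ∀ c, regA (swp P) c = regA P c := by
    intro c
    unfold regA
    rw [get_swp]
    cases h : P[c.1]? with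
    | none => rfl
    | some x => cases x <;> rfl
  have hlet : ∀ c z, letA (swp P) c = some z → letA P c = some z := by
    intro c z
    unfold letA
    rw [get_swp]
    cases h : P[c.1]? with
    | none => exact id
    | some x => cases x <;> simp [swi]
  rcases h with ⟨t, h1, h2, h3⟩ | ⟨t, s, b, B, k, x, h1, h2, h3, h4, h5, h6, ⟨S, g1, g2, g3, g4⟩,
    h8, h9⟩ | ⟨t, s, b, q, x, h1, h2, h3, h4, h5, h6, ⟨β, ω, g1, g2, g3⟩, h8, h9⟩
  · refine Or.inl ⟨t, (acc_swp P _ w t).2 h1, fun u hu i => ?_, h3⟩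
    rw [conf_swp]
    exact h2 u hu i
  · refine Or.inr (Or.inl ⟨t, s, b, B, k, x, h1, h2, h3, (acc_swp P _ w t).2 h4,
      fun u hu i => ?_, fun u hu z hz => ?_, ⟨S, g1, g2, fun u hu z hz => ?_, g4⟩, h8, h9⟩)
    · rw [conf_swp]
      exact h5 u hu i
    · rw [conf_swp, ld_swp] at hz
      exact h6 u hu z hz
    · rw [conf_swp, ld_swp] at hz
      exact g3 u hu z hz
  · refine Or.inr (Or.inr ⟨t, s, b, q, x, h1, h2, (acc_swp P _ w t).2 h3, h4,
      fun u hu i => ?_, fun u hu z hz => ?_, ⟨β, ω, fun u hu z hz => ?_, fun u hu z hz => ?_, g3⟩,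
      h8, h9⟩)
    · rw [conf_swp]
      exact h5 u hu i
    · rw [conf_swp, hreg] at hz
      exact h6 u hu z hz
    · rw [conf_swp, hreg] at hz
      exact g1 u hu z hz
    · rw [conf_swp] at hz
      exact g2 u hu z (hlet _ _ hz)

/-- Turing machines with one work tape. -/
theorem coded_tmF (h : FnvOK) (hCM : GoalCMB) (hT : TmcOK) {D : LD} {F : List Bool → List Bool}
    (hF : D.Is F) {b : ℕ} (hlen : ∀ w, (F w).length ≤ b * (w.length + 1))
    (hle : ∀ w, w.length ≤ (F w).length) (M : TM 1) (a : ℕ) (C : ℝ) :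
    Coded accW NFW (fun w y => (Machine.tm M).Acc (F w) y)
      (fun w y => (Machine.tm M).Fast a C (F w).length (F w) y) := by
  refine Coded.mono (Coded.toW (coded_tm h hCM hT hF M
    (|C| * ((b : ℝ) + 4 * (0 : ℕ) + 1) ^ 3))) ?_
  rintro w y ⟨t, ht, htC⟩
  exact ⟨t, ht, time_le (c := 0) (hle w) (by simpa using hlen w) htC⟩

/-- All machines. -/
theorem coded_all (h : FnvOK) (hCM : GoalCMB) (hT : TmcOK) (hPR : GoalPRC) {D : LD}
    {F : List Bool → List Bool} (hF : D.Is F) {b : ℕ}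
    (hlen : ∀ w, (F w).length ≤ b * (w.length + 1)) (hle : ∀ w, w.length ≤ (F w).length)
    (X : Machine) (a : ℕ) (C : ℝ) :
    Coded accW NFW (fun w y => X.Acc (F w) y) (fun w y => X.Fast a C (F w).length (F w) y) := by
  cases X with
  | prog P => exact coded_fast h hCM hPR hF hlen hle P a C
  | tm M => exact coded_tmF h hCM hT hF hlen hle M a C

/-- **The lower bound.** -/
theorem main (hub : HubW) (h : FnvOK) (hCM : GoalCMB) (hT : TmcOK) (hPR : GoalPRC) (hR : RedOK)
    (c : ℕ) (hc : 0 < c) :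
    ∃ (L : Set (List Bool)) (f : List Bool → RegularExpression Bool) (b : ℕ),
      L ∈ USPACE (fun n => (n : ℝ)) ∧ Lᶜ ∈ USPACE (fun n => (n : ℝ)) ∧
      LinComp (fun w => enc (f w)) ∧
      (∀ w, w.length ≤ (enc (f w)).length ∧ (enc (f w)).length ≤ b * (w.length + 1)) ∧
      (∀ w, (f w).matches' = ⊤ ↔ w ∉ L) ∧
      (∃ c' : ℝ, ∀ n : ℕ, |({w : List Bool | w.length = n ∧ w ∈ L}.ncard : ℝ) - 2 ^ n / 2| ≤
        c' * 2 ^ ((n : ℝ) / 2)) ∧
      (∀ F : List Bool → List Bool, F = id ∨ F = (fun w => enc (f w)) →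
        ∀ (X : Machine) (a : ℕ) (C : ℝ),
          Hard L c (fun w α => X.Acc (F w) α) (fun w α => X.Fast a C (F w).length (F w) α) ∧
          Hard L c (fun w α => Q (c * w.length) fun v => X.Acc (F w) (α ++ v))
            (fun w α => Q (c * w.length) fun v => X.Fast a C (F w).length (F w) (α ++ v))) ∧
      ∀ U : Set (List Bool), U = Universal ∨ U = NonUniversal →
        ∀ X : Machine, (∀ v, X.Acc v [] → v ∈ U) →
          ∀ (a : ℕ) (C : ℝ), {w | X.Fast a C (enc (f w)).length (enc (f w)) []}.Finite := by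
  obtain ⟨L, h1, h2, h3⟩ := hub c hc
  obtain ⟨f, hloc, hle, hf⟩ := hR L h1
  obtain ⟨D, hD, b, hlen⟩ := hloc.exists_ld
  have hlen' : ∀ w, (enc (f w)).length ≤ b * (w.length + 1) := hlen
  have hF : ∀ F : List Bool → List Bool, F = id ∨ F = (fun w => enc (f w)) →
        ∀ (X : Machine) (a : ℕ) (C : ℝ),
          Hard L c (fun w α => X.Acc (F w) α) (fun w α => X.Fast a C (F w).length (F w) α) ∧
          Hard L c (fun w α => Q (c * w.length) fun v => X.Acc (F w) (α ++ v))
            (fun w α => Q (c * w.length) fun v => X.Fast a C (F w).length (F w) (α ++ v)) := by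
    rintro F (rfl | rfl) X a C
    · exact h3 _ _ (coded_all h hCM hT hPR idD_is (b := 1) (fun w => by simp)
        (fun w => le_rfl) X a C)
    · exact h3 _ _ (coded_all h hCM hT hPR hD hlen' hle X a C)
  refine ⟨L, f, b, h1, h2, hloc.linComp, fun w => ⟨hle w, hlen w⟩, hf, ?_, hF,
    fun U hU X hX a C => finite_of_hard (hF _ (Or.inr rfl) X a C).1 hf hU fun w hw => hX _ hw⟩
  refine half_of_hard (c := c) ((hF id (Or.inl rfl) (Machine.prog []) 0 0).1.mono ?_ ?_)
  · rintro w α ⟨t, ht⟩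
    have h1 : (none : Option Ins) = some .accept := ht
    exact absurd h1 (by simp)
  · exact fun w α h => h.elim

/-- **The simulation.** -/
theorem simul (hO : OlmOK) (hN : LS NFV) (h : FnvOK) (hCM : GoalCMB) (hT : TmcOK)
    (hPR : GoalPRC) (X : Machine) (a : ℕ) (C : ℝ) : ∃ (B : Set (List Bool)) (m₀ : ℕ),
      B ∈ USPACE (fun n => (n : ℝ)) ∧ Bᶜ ∈ USPACE (fun n => (n : ℝ)) ∧
      ∀ m : ℕ, m₀ ≤ m → ∀ w : List Bool,
        (List.replicate m true ++ false :: w ∈ B → X.Acc w []) ∧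
        (X.Fast a C m w [] → List.replicate m true ++ false :: w ∈ B) := by
  have hNW : LS NFW := LS.mul (LS.const 2) hN
  cases X with
  | prog P =>
    have hC := coded_fast h hCM hPR idD_is (b₀ := 1) (fun w => by simp) (fun w => le_rfl)
      (swp P) a C
    obtain ⟨B, m₀, g1, g2, g3⟩ := sim_pad (orcW hN hO) hNW hC 0
    refine ⟨B, m₀, g1, g2, fun m hm w => ?_⟩
    obtain ⟨g4, g5⟩ := g3 m hm w
    rw [Nat.zero_mul, q_zero, List.append_nil] at g4 g5
    refine ⟨fun hB => ?_, fun hw => g5 ?_⟩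
    · obtain ⟨t, ht⟩ := g4 hB
      exact ⟨t, (acc_swp P _ w t).1 ht⟩
    · have h5 := fast_swp hw
      rwa [List.length_replicate]
  | tm M =>
    obtain ⟨B, m₀, g1, g2, g3⟩ := simT hO hN h hCM hT M C
    refine ⟨B, m₀, g1, g2, fun m hm w => ⟨fun hB => ?_, fun hw => (g3 m hm w).2 ?_⟩⟩
    · obtain ⟨t, ht⟩ := (g3 m hm w).1 hB
      exact ⟨t, by rwa [List.append_nil]⟩
    · obtain ⟨t, ht, htC⟩ := hw
      rw [List.append_nil] at ht
      exact ⟨t, ht, htC⟩

end Pool.Agent.Helper53.UV
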