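import Pool.Agent.Helper53.UV.All
import Pool.Agent.Helper53.UV.Main
import Pool.Agent.Helper31.UV.CMBA
import Pool.Agent.Helper31.UV.PRCB
import Pool.Agent.Helper47.UR2.SCH
import Pool.Agent.Helper66.UR2.SIZ
import Pool.Agent.Helper81.UR2.Sim
import Pool.Agent.Helper88.UV.TmcF
import Pool.Agent.Helper92.UR2.CMP

/-!
# PROJECT UR2 (MP_c578c8_lc): the theorem, without hypotheses
-/

namespace Pool.Agent.Helper53.UV

open Pool.Agent.Helper1.TE (USPACE)
open Pool.Agent.Helper78.Mpc (LinComp)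
open Pool.Agent.Helper81.Gen4 (Q)
open Pool.Agent.Helper31.Gen5 (Hard)
open Pool.Agent.Helper92.RE (enc Universal NonUniversal)

theorem cmbOK : GoalCMB := Pool.Agent.Helper31.UV.cmb_of fun M => by
  obtain ⟨K, hK⟩ := Pool.Agent.Helper92.UR2.gCMP Pool.Agent.Helper81.UR2.gCNF
    Pool.Agent.Helper81.UR2.gBLK Pool.Agent.Helper47.UR2.gSCH Pool.Agent.Helper66.UR2.gSIZ M
  exact ⟨Pool.Agent.Helper81.UR2.mach M, K, fun w y => Pool.Agent.Helper81.UR2.sound M w y, hK⟩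

theorem tmcOK : TmcOK := @(Pool.Agent.Helper88.UV.tmc avg)

theorem prcOK : GoalPRC := @Pool.Agent.Helper31.UV.PRC.gPRC

theorem hubW : HubW := hubW_of Pool.Agent.Helper31.UR.qHardOL lsParOK.1 olmOK

theorem mainOK (c : ℕ) (hc : 0 < c) :
    ∃ (L : Set (List Bool)) (f : List Bool → RegularExpression Bool) (b : ℕ),
      L ∈ USPACE (fun n => (n : ℝ)) ∧ Lᶜ ∈ USPACE (fun n => (n : ℝ)) ∧
      LinComp (fun w => enc (f w)) ∧
      (∀ w, w.length ≤ (enc (f w)).length ∧ (enc (f w)).length ≤ b * (w.length + 1)) ∧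
      (∀ w, (f w).matches' = ⊤ ↔ w ∉ L) ∧
      (∃ c' : ℝ, ∀ n : ℕ, |({w : List Bool | w.length = n ∧ w ∈ L}.ncard : ℝ) - 2 ^ n / 2| ≤
        c' * 2 ^ ((n : ℝ) / 2)) ∧
      (∀ F : List Bool → List Bool, F = id ∨ F = (fun w => enc (f w)) →
        ∀ (X : Machine) (a : ℕ) (C : ℝ),
          Hard L c (fun w α => X.Acc (F w) α) (fun w α => X.Fast a C (F w).length (F w) α) ∧
          Hard L c (fun w α => Q (c * w.length) fun v => X.Acc (F w) (α ++ v))
            (fun w α => Q (c * w.length) fun v => X.Fast a C (F w).length (F w) (α ++ v))) ∧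
      ∀ U : Set (List Bool), U = Universal ∨ U = NonUniversal →
        ∀ X : Machine, (∀ v, X.Acc v [] → v ∈ U) →
          ∀ (a : ℕ) (C : ℝ), {w | X.Fast a C (enc (f w)).length (enc (f w)) []}.Finite :=
  main hubW fnvOK cmbOK tmcOK prcOK Pool.Agent.Helper53.UR.redOK c hc

theorem simulOK (X : Machine) (a : ℕ) (C : ℝ) : ∃ (B : Set (List Bool)) (m₀ : ℕ),
      B ∈ USPACE (fun n => (n : ℝ)) ∧ Bᶜ ∈ USPACE (fun n => (n : ℝ)) ∧
      ∀ m : ℕ, m₀ ≤ m → ∀ w : List Bool,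
        (List.replicate m true ++ false :: w ∈ B → X.Acc w []) ∧
        (X.Fast a C m w [] → List.replicate m true ++ false :: w ∈ B) :=
  simul olmOK lsParOK.1 fnvOK cmbOK tmcOK prcOK X a C

end Pool.Agent.Helper53.UV
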