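import Pool.Agent.Helper53.UV.Hub
import Pool.Agent.Helper31.MHS.Two

/-!
# PROJECT UR2 (MP_c578c8_lc): packet HUB
-/

namespace Pool.Agent.Helper53.UV

open Pool.Agent.Helper65.LinSpace Pool.Agent.Helper78.Mpc
open Pool.Agent.Helper1.TE (USPACE)
open Pool.Agent.Helper81.Gen4 (Q)
open Pool.Agent.Helper31.Gen5 (Hard)
open Pool.Agent.Helper31.MHS (q_take)
open Pool.Agent.Helper92.KR (Coded par Coded.even Coded.odd)
open Pool.Agent.Helper53.UR (QHardOL)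

/-- The questions of `par accV c`. -/
def pmV (c : ℕ) (z : Qn) : Qn :=
  (z.1 / 2, z.2.1, ifz (z.1 % 2) z.2.2.1 (Pool.Agent.Helper31.MHS.drp (3 * c) z.2.1 z.2.2.1),
    z.2.2.2)

theorem ls_pmV (c : ℕ) : LS (pmV c) := by
  unfold pmV
  have h1 : LS (fun z : Qn => ifz (z.1 % 2) z.2.2.1
      (Pool.Agent.Helper31.MHS.drp (3 * c) z.2.1 z.2.2.1)) :=
    LS.ifz (by fun_prop) (by fun_prop)
      (LS.comp (g := fun z : ℕ × ℕ => Pool.Agent.Helper31.MHS.drp (3 * c) z.1 z.2)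
        (f := fun z : ℕ × ℕ × ℕ × ℕ => (z.2.1, z.2.2.1))
        (Pool.Agent.Helper31.MHS.ls_drp (3 * c)) (by fun_prop))
  fun_prop

theorem hub_of (hQ : QHardOL) (hN : LS NFV) (hO : ∀ pm : Qn → Qn, LS pm → ∀ F : ℕ → ℕ,
    Pool.Agent.Helper31.OL.OL (accPm pm) F →
    {w | F (num w) ≠ 0} ∈ USPACE (fun n => (n : ℝ)) ∧
    {w | F (num w) ≠ 0}ᶜ ∈ USPACE (fun n => (n : ℝ))) : HubOK := by
  intro c hc
  obtain ⟨F, h1, h2⟩ := hQ (par accV c) NFV hN c c hc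
  have h3 : Pool.Agent.Helper31.OL.OL (accPm (pmV c)) F := h1
  obtain ⟨h4, h5⟩ := hO (pmV c) (ls_pmV c) F h3
  refine ⟨{w | F (num w) ≠ 0}, h4, h5, fun Acc Good hC => ⟨?_, h2 _ _ (hC.even c)⟩⟩
  exact (h2 _ _ (hC.odd c)).mono (fun w α h => (q_take c w α fun y => Acc w y).1 h)
    (fun w α h => (q_take c w α fun y => Good w y).2 h)

end Pool.Agent.Helper53.UV
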