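import Pool.Agent.Helper53.UV.Par
import Pool.Agent.Helper53.UR.Hub

/-!
# PROJECT UR2 (MP_c578c8_lc): goals, part D (assembly)
-/

namespace Pool.Agent.Helper53.UV

open Pool.Agent.Helper65.LinSpace Pool.Agent.Helper78.Mpc
open Pool.Agent.Helper1.TE (USPACE)
open Pool.Agent.Helper65.BR (BM)
open Pool.Agent.Helper81.Gen4 (Q)
open Pool.Agent.Helper31.Gen5 (Hard)
open Pool.Agent.Helper31.OL (Lp OL)
open Pool.Agent.Helper92.KR (Coded par)
open Pool.Agent.Helper53.UR (UM GenOK QHardOL)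

/-- The answer to the question `pm z`. -/
def accPm (pm : Qn → Qn) (z : Qn) : ℕ := accV (pm z).1 (pm z).2.1 (pm z).2.2.1 (pm z).2.2.2

/-- The machine of a loop with questions; for `flip = 0` it accepts if the result is not `0`, otherwise if
the result is `0`. -/
def umV (L : Lp Qn ℕ ℕ) (pm : Qn → Qn) (flip : ℕ) : UM L.B where
  I := L.I
  d o b := L.d (o, b)
  h := L.h
  out o := ifz flip (L.o o) (ifz (L.o o) 1 0)
  N o := Qn.N (pm (L.q o))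
  q o := Qn.q (pm (L.q o))
  b o := Qn.b (pm (L.q o))
  c o := Qn.c (pm (L.q o))
  W o := Qn.W (pm (L.q o))
  t o := Qn.t (pm (L.q o))
  ts o := Qn.s (pm (L.q o))

/-- OLM. As `Pool/Agent/Helper31/UR/OLM.lean`. -/
def GoalOLM : Prop := GenOK →
  (∀ z : Qn, Qn.W z = 2 ^ Pool.Agent.Helper53.CTG.Et (Qn.N z) (Qn.q z) (Qn.b z) (Qn.c z)) →
  ParOK → LSParOK → LS (fun x : Qn × ℕ × ℕ × ℕ × ℕ × ℕ =>
    Qn.t x.1 x.2.1 x.2.2.1 x.2.2.2.1 x.2.2.2.2.1 x.2.2.2.2.2) →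
  ∀ pm : Qn → Qn, LS pm → ∀ F : ℕ → ℕ, OL (accPm pm) F →
    {w | F (num w) ≠ 0} ∈ USPACE (fun n => (n : ℝ)) ∧
    {w | F (num w) ≠ 0}ᶜ ∈ USPACE (fun n => (n : ℝ))

/-- The conclusion of HUB. -/
def HubOK : Prop := ∀ c : ℕ, 0 < c → ∃ L : Set (List Bool), L ∈ USPACE (fun n => (n : ℝ)) ∧
  Lᶜ ∈ USPACE (fun n => (n : ℝ)) ∧ ∀ Acc Good : List Bool → List Bool → Prop,
    Coded accV NFV Acc Good →
      Hard L c Acc Good ∧ Hard L c (fun w α => Q (c * w.length) fun v => Acc w (α ++ v))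
        (fun w α => Q (c * w.length) fun v => Good w (α ++ v))

end Pool.Agent.Helper53.UV
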