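import Pool.Agent.Helper53.UV.Tree
import Pool.Agent.Helper53.UR.Par

/-!
# PROJECT UR2 (MP_c578c8_lc): goals, part C (parameters, question, hardness of the simulation)

Deliver `Pool/Agent/<Seat>/UV/XX.lean` with `theorem gXX : GoalXX` (namespace `Pool.Agent.<Seat>.UV`),
imports `Pool.Agent.Helper53.UV.Par`. Adaptations of the packets of project UR with the same names.
Proved statements of project BR may be used: RUNC (`Helper14.BR.runc`), CODE (`Helper35.BR.CODE`), WORD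
(`Helper12.BR.WORD`), SIZ (`Helper69.BR.siz`), LSP (`Helper56.BR.lsp`), PAR (`Helper96.BR.PAR`).
-/

namespace Pool.Agent.Helper53.UV

open Pool.Agent.Helper65.LinSpace Pool.Agent.Helper78.Mpc Filter
open Pool.Agent.Helper65.BR (Mach BM Prm prm bT lT)
open Pool.Agent.Helper53.CTG (ev Et Nt Hb Eb Fb)
open Pool.Agent.Helper53.UR (betU KU WithinU)

/-! ### The machines `vm P ty G` -/

/-- The new state after a read, if the value `d` is read. For `ty = 0` the value is the content. For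
`ty ≠ 0` only the lowest `G` bits of the state can change, and `d - 1` is the number of the new lowest
`G` bits; `0` stands for failure. -/
def nxV (P : Prm) (ty G q d : ℕ) : ℕ :=
  ifz ty (P.nxN q d) (ifz (P.rdg q) (P.nxN q 1)
    (capN P.S (ifz d 0 (q / 2 ^ G * 2 ^ G + (d - 1)))))

/-- The value which is read, if `c` is the content. -/
def rdV (P : Prm) (ty G q c : ℕ) : ℕ :=
  ifz ty (capN G c) (ifz (P.rdg q) 0
    (ifz (eq01 (P.nxN q c / 2 ^ G) (q / 2 ^ G)) 0 (P.nxN q c % 2 ^ G + 1)))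

/-- The machine. -/
def vm (P : Prm) (ty G : ℕ) : RM where
  s := P.S + 1
  a := P.H + 1
  ν := P.Z + 1
  g := G + 1
  A := P.rdN
  R q c := rdV P ty G q c
  N q v := P.sil (nxV P ty G q v) P.T
  W q v x c := capN P.H (P.wil (nxV P ty G q v) x
    (ifz (accN q) (P.wrN (nxV P ty G q v) x c) c) P.T)
  q0 := P.sil P.s0 P.T
  M0 x := P.wil P.s0 x 1 P.T

/-- VMC (comparison with `P.mach`). Write `q` for the state, `c` for the content which is read.
`nxV q (rdV q c)` is `nxN q c` or `0`: for `ty = 0`: `nxN q (capN G c)`, and `capN G c = c` or `0`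
(`capN_ne`); `nxN q 0` is `nxN q c` if `rdg q = 0` or `accN q ≠ 0`, and otherwise `0` (`inN q 0 = 0`, as
`catN _ 0 = 0`, `fnN _ 0 = 0`). For `ty ≠ 0`: if `rdg q = 0` then `nxN q c = nxN q 1`. If `rdg q ≠ 0` and
`nxN q c / 2 ^ G = q / 2 ^ G`, then `q / 2 ^ G * 2 ^ G + nxN q c % 2 ^ G = nxN q c < 2 ^ (S + 1)`, so the cut
`capN` changes nothing (`nxN_lt` in `Pool/Agent/Helper56/BR/LSP.lean`); otherwise the value is `0`. If the
new state is `nxN q c`, the new configuration is that of `P.mach`. If it is `0`: `sil 0 T = 0`, and `0`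
stays: `nxN 0 v = 0`, `rdg 0 = 0`. (`snd`), and (`cmp`) by induction on `k`; for `accN q ≠ 0`:
`nxN q c = capN S q = q`, as the states of `P.mach` are smaller than `2 ^ (S + 1)`. -/
structure VMC_stmt : Prop where
  ok : ∀ (P : Prm) (ty G : ℕ), P.mach.Ok → (vm P ty G).Ok
  snd : ∀ (P : Prm) (ty G k : ℕ), (vm P ty G).conf k = P.mach.conf k ∨
    ((vm P ty G).conf k).1 = 0
  cmp : ∀ (P : Prm) (ty G k : ℕ),
    (∀ j < k, P.rdg (P.mach.conf j).1 ≠ 0 → accN (P.mach.conf j).1 = 0 →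
      (ty = 0 → capN G ((P.mach.conf j).2 (P.rdN (P.mach.conf j).1)) =
        (P.mach.conf j).2 (P.rdN (P.mach.conf j).1)) ∧
      (ty ≠ 0 → P.nxN (P.mach.conf j).1 ((P.mach.conf j).2 (P.rdN (P.mach.conf j).1)) / 2 ^ G =
        (P.mach.conf j).1 / 2 ^ G)) →
    (vm P ty G).conf k = P.mach.conf k

def GoalVMC : Prop := VMC_stmt

/-! ### Parameters: the bounds `s`, `a`, `m`, `g` are the digits `0, 1, 2, 3` of `T` in base `n + 2` -/

/-- The exponent `e` of the number `2 ^ e` of the reads of a part. -/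
def eV (n T : ℕ) : ℕ := Nat.log 2 (betU n T / (2 * (bT n T 3 + 1)))

/-- `1` if the parameters are admissible. -/
def okV (n T : ℕ) : ℕ :=
  le01 (bT n T 0 + 1 + (bT n T 3 + 1) * 2 ^ eV n T) (betU n T) *
    (le01 (bT n T 1 + 1) (betU n T) * le01 (bT n T 2 + 2) (betU n T))

/-- The number of bits of a result in the call tree. -/
def bV (n T : ℕ) : ℕ := ifz (okV n T) 1 (betU n T)

/-- The number of bits of an argument. -/
def cV (n T : ℕ) : ℕ := ifz (okV n T) 0 (bT n T 2 + 2)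

/-- The height of the call tree. -/
def NV (n T : ℕ) : ℕ := KU n T * (eV n T + 3)

/-- A question: the code `2 e + ty` of the machine, the input `x`, the additional word `y`, and
`T' = T * (2 x + 2) + p`. -/
abbrev Qn := ℕ × ℕ × ℕ × ℕ

namespace Qn

/-- The length of the input. -/
def n (z : Qn) : ℕ := Nat.log 2 z.2.1
/-- The code of the bounds. -/
def T (z : Qn) : ℕ := z.2.2.2 / (2 * z.2.1 + 2)
/-- The number of the parameter word. -/
def p (z : Qn) : ℕ := z.2.2.2 % (2 * z.2.1 + 2)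
/-- The machine. -/
def m (z : Qn) : RM := vm (prm (z.1 / 2) z.2.1 z.2.2.1 (T z) (p z)) (z.1 % 2) (bT (n z) (T z) 3)
/-- The height of the tree. -/
def N (z : Qn) : ℕ := NV (n z) (T z)
/-- The height of a part of the tree. -/
def q (z : Qn) : ℕ := eV (n z) (T z) + 3
/-- The bits of results. -/
def b (z : Qn) : ℕ := bV (n z) (T z)
/-- The bits of arguments. -/
def c (z : Qn) : ℕ := cV (n z) (T z)
/-- The number `2 ^ Et`. -/
def W (z : Qn) : ℕ := capPow 2 (Et (N z) (q z) (b z) (c z)) ((z.2.1 + 2) ^ 2000)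
/-- The tables. -/
def t (z : Qn) (mm v x y w : ℕ) : ℕ := tb (m z) (eV (n z) (T z)) (N z) (b z) mm v x y w
/-- The test for the result. -/
def s (z : Qn) (v : ℕ) : ℕ :=
  okV (n z) (T z) * (lt01 0 (p z) * (lt01 (p z) (2 ^ (bT (n z) (T z) 0 + 1)) * accN v))
/-- The value of the root. -/
def val (z : Qn) : ℕ := ev (t z) (q z) (c z) (N z) 1 0

end Qn

/-- The answer: `1` if the simulation finds acceptance for the bounds `T` and the parameter word
`p`. -/
def accV (e x y T : ℕ) : ℕ := lt01 0 (Qn.s (e, x, y, T) (Qn.val (e, x, y, T)))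

/-- The number of the codes `T'`. -/
def NFV (x : ℕ) : ℕ := (Nat.log 2 x + 2) ^ 4 * (2 * x + 2)

/-! ### Goals -/

/-- ETB. As `Pool/Agent/Helper98/UR/ETB.lean`. -/
def GoalETB : Prop :=
  (∀ n T : ℕ, Et (NV n T) (eV n T + 3) (bV n T) (cV n T) ≤ 1000 * (n + 1)) ∧
  ∀ z : Qn, Qn.W z = 2 ^ Et (Qn.N z) (Qn.q z) (Qn.b z) (Qn.c z)

/-- The parameters are good. -/
def ParOK : Prop :=
  (∀ n T : ℕ, 1 ≤ eV n T + 3 ∧ eV n T + 3 ≤ NV n T ∧ 1 ≤ bV n T ∧ cV n T ≤ bV n T ∧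
    (bT n T 0 + 1) + (bT n T 3 + 1) * 2 ^ eV n T ≤ 3 * (n + 1)) ∧
  (∀ (z : Qn) (mm v x y w : ℕ), Qn.t z mm v x y w < 2 ^ Qn.b z) ∧
  ∀ z : Qn, okV (Qn.n z) (Qn.T z) ≠ 0 →
    TOk (Qn.m z) (eV (Qn.n z) (Qn.T z)) (KU (Qn.n z) (Qn.T z)) (Qn.b z) (Qn.c z)

/-- PRA. As `Pool/Agent/Helper95/UR/PRA.lean`, with `okV`; `TOk.hm` by VMC.ok and PAR of project BR. -/
def GoalPRA : Prop := VMC_stmt → ParOK

/-- ASV. As `Pool/Agent/Helper16/UR/ASU.lean`: `T = s + (n + 2) (a + (n + 2) (m + (n + 2) g))`; `g` takes the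
role of `a` in `eV`, and `a + 1 ≤ betU`. -/
def GoalASV : Prop := ∀ C : ℝ, ∀ᶠ n : ℕ in atTop, ∀ x s m a g : ℕ, 1 ≤ s →
  (x : ℝ) * ((g : ℝ) + 1) * ((m : ℝ) + ((Nat.log 2 n : ℝ) + 1)) ^ 4 ≤ C * ((n : ℝ) + 1) ^ 2 →
  ((s : ℝ) + a + g) * ((m : ℝ) + ((Nat.log 2 n : ℝ) + 1)) ^ 4 ≤ C * ((n : ℝ) + 1) →
  ∃ T < (n + 2) ^ 4, bT n T 0 = s ∧ bT n T 1 = a ∧ bT n T 2 = m ∧ bT n T 3 = g ∧
    okV n T = 1 ∧ x ≤ KU n T * 2 ^ eV n T

/-- The parameters are computed in linear space. -/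
def LSParOK : Prop := LS NFV ∧ LS Qn.n ∧ LS Qn.T ∧ LS Qn.p ∧
  LS (fun z : Qn => bT (Qn.n z) (Qn.T z) 3) ∧ LS (fun z : Qn => eV (Qn.n z) (Qn.T z)) ∧
  LS (fun z : Qn => KU (Qn.n z) (Qn.T z)) ∧ LS (fun z : Qn => okV (Qn.n z) (Qn.T z)) ∧
  LS Qn.N ∧ LS Qn.q ∧ LS Qn.b ∧ LS Qn.c ∧ LS Qn.W ∧ LS (fun x : Qn × ℕ => Qn.s x.1 x.2)

/-- LPR. As `Pool/Agent/Helper45/UR/LPR.lean`. -/
def GoalLPR : Prop := ParOK → LSParOK

/-- The functions of the machines `Qn.m z` are computed in linear space. -/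
def LSMOK : Prop := LS (fun z : Qn => (Qn.m z).s) ∧ LS (fun z : Qn => (Qn.m z).a) ∧
  LS (fun z : Qn => (Qn.m z).g) ∧ LS (fun x : Qn × ℕ => (Qn.m x.1).A x.2) ∧
  LS (fun x : Qn × ℕ × ℕ => (Qn.m x.1).R x.2.1 x.2.2) ∧
  LS (fun x : Qn × ℕ × ℕ => (Qn.m x.1).N x.2.1 x.2.2) ∧
  LS (fun x : Qn × ℕ × ℕ × ℕ × ℕ => (Qn.m x.1).W x.2.1 x.2.2.1 x.2.2.2.1 x.2.2.2.2) ∧
  LS (fun z : Qn => (Qn.m z).q0) ∧ LS (fun x : Qn × ℕ => (Qn.m x.1).M0 x.2)

/-- LMV. The proof of LSP of project BR (`Pool/Agent/Helper56/BR/LSP.lean`) contains the functions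
`nxN`, `rdg`, `rdN`, `wrN`, `sil`, `wil` of `prm …` as functions of all arguments; `nxV`, `rdV` by `LS.ifz`,
`LS.capN`, `LS.eq01`, `LS.divPow`, `LS.modPow`; `2 ^ G ≤ CT x` (`G = bT n T 3 ≤ ZL n ≤ n`). -/
def GoalLMV : Prop := LSParOK → LSMOK

/-- TLS (the tables). As `Pool/Agent/Helper53/UR/TLS.lean`, with `LSMOK` for the functions of the machine;
`2 ^ (m.s + m.g * (p % 2 ^ eV)) ≤ 2 ^ (3 (n + 1)) ≤ (x + 2) ^ 6` by ParOK. -/
def GoalTLS : Prop := ParOK → LSParOK → LSMOK →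
  LS (fun x : Qn × ℕ × ℕ × ℕ × ℕ × ℕ =>
    Qn.t x.1 x.2.1 x.2.2.1 x.2.2.2.1 x.2.2.2.2.1 x.2.2.2.2.2)

/-- As `WithinU`, with one more bound `g`: a step which reads a block changes only the first `g` bits
of the state (`num` is the number of a word, the first letter being the lowest digit). For
`l = m + ⌊log₂ n⌋ + 1`: `x (g + 1) l ^ 4 ≤ C (n + 1) ^ 2` and `(s + a + g) l ^ 4 ≤ C (n + 1)`. -/
def WithinV (A : BM) (C : ℝ) (w y : List Bool) : Prop :=
  ∃ (p : List Bool) (r s m a g : ℕ), A.AcceptsAt w y p r ∧ p.length ≤ s ∧ A.Fits w y p r s m a ∧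
    (∀ t < r, (A.blk (A.conf w y p t).1).head? = some true →
      num (A.conf w y p (t + 1)).1 / 2 ^ g = num (A.conf w y p t).1 / 2 ^ g) ∧
    (A.reads w y p r : ℝ) * ((g : ℝ) + 1) *
      ((m : ℝ) + ((Nat.log 2 w.length : ℝ) + 1)) ^ 4 ≤ C * ((w.length : ℝ) + 1) ^ 2 ∧
    ((s : ℝ) + a + g) * ((m : ℝ) + ((Nat.log 2 w.length : ℝ) + 1)) ^ 4 ≤
      C * ((w.length : ℝ) + 1)

/-- FNV. As `Pool/Agent/Helper67/UR/FNU.lean`; the code of the machine is `2 e + ty`, where `e` is as in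
FNU; `z.m.conf` is compared with `mach.conf` by VMC.
(a) `accN val ≠ 0` with `val = (z.m.conf …).1`, so it is not `0`, and VMC.snd, RUNC.snd, WORD.snd apply.
(b) The smallest accepting time `r` (the hypotheses are monotone in `r`). For `ty = 0`: ASV with `g = a`
(constant `2 |C|`), and `capN H c = c` as all contents are smaller than `2 ^ (H + 1)` (`mach.Ok`,
PAR). For `ty ≠ 0`: if `(mach.conf k).1` does not accept then `mach.conf k = run j` with `j < r`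
(RUNC.snd; the accepting states after the time `r` do not change), so by WORD.cmp the state is
`num (A.conf j).1`, the new state `nxN …` is `(run (j + 1)).1 = num (A.conf (j + 1)).1`, and `rdg ≠ 0` is
`blk … = some true`: the condition of VMC.cmp. -/
def GoalFNV : Prop := VMC_stmt →
  (∀ (m : RM) (e K b c : ℕ), TOk m e K b c →
    ev (tb m e (K * (e + 3)) b) (e + 3) c (K * (e + 3)) 1 0 = (m.conf (K * 2 ^ e)).1) →
  ParOK → GoalASV → ∀ (A : BM) (C : ℝ),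
  (∃ e n₀ : ℕ, ∀ w y : List Bool, n₀ ≤ w.length →
    (∀ T < NFV (num w), accV e (num w) (num y) T ≠ 0 → ∃ p r, A.AcceptsAt w y p r) ∧
    (WithinU A C w y → ∃ T < NFV (num w), accV e (num w) (num y) T ≠ 0)) ∧
  ∃ e n₀ : ℕ, ∀ w y : List Bool, n₀ ≤ w.length →
    (∀ T < NFV (num w), accV e (num w) (num y) T ≠ 0 → ∃ p r, A.AcceptsAt w y p r) ∧
    (WithinV A C w y → ∃ T < NFV (num w), accV e (num w) (num y) T ≠ 0)

end Pool.Agent.Helper53.UV
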