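import Pool.Agent.Helper53.UV.Cell

/-!
# PROJECT UR2 (MP_c578c8_lc): goals, part F (programs which work in blocks)
-/

namespace Pool.Agent.Helper53.UV

open Pool.Agent.Helper65.LinSpace Pool.Agent.Helper78.Mpc
open Pool.Agent.Helper81.RP (Ins AcceptsAt conf)
open Pool.Agent.Helper92.RE (LD)

/-- The register `R (R j)` or `R (R i)` which is loaded or changed by the next instruction, if it is
`load` or `store`. -/
def regA (P : List Ins) (c : ℕ × (ℕ → ℕ)) : Option ℕ :=
  match P[c.1]? with
  | some (.load _ j) => some (c.2 j)
  | some (.store i _) => some (c.2 i)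
  | _ => none

/-- The number of the letter which is read by the next instruction, if it is `input` or `advice`. -/
def letA (P : List Ins) (c : ℕ × (ℕ → ℕ)) : Option ℕ :=
  match P[c.1]? with
  | some (.input _ j) => some (c.2 j)
  | some (.advice _ j) => some (c.2 j)
  | _ => none

/-- The first `t` steps of the program are made in blocks of `q` registers and windows of `q` letters,
with `x` changes: `β u` is the number of the block and `ω u` the number of the window in the step `u`,
the block number `j` consists of the registers `q j, …, q j + q - 1`, and the window number `j` of the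
letters of the two words with these numbers. A register is loaded or stored with `R (R j)` only in the
current block, and a letter is read only in the current window. -/
def InBlocks (P : List Ins) (v y : List Bool) (q x t : ℕ) : Prop :=
  ∃ β ω : ℕ → ℕ, (∀ u < t, ∀ z, regA P (conf P v y u) = some z → z / q = β u) ∧
    (∀ u < t, ∀ z, letA P (conf P v y u) = some z → z / q = ω u) ∧
    {u : ℕ | u < t ∧ (β (u + 1) ≠ β u ∨ ω (u + 1) ≠ ω u)}.ncard ≤ x

/-- The program `P` accepts the word `v` of length `n`, with the second word `y`, at a time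
`t < 2 ^ (q s)`, all numbers in the registers being less than `2 ^ s` up to this time and the numbers of
the registers which are loaded or stored less than `2 ^ b`, in blocks of `q` registers and windows
of `q` letters with `x` changes, where `⌊log₂ n⌋ + 1 ≤ s` and, for `l = b + ⌊log₂ n⌋ + 1`,
`x s l ^ 4 ≤ C (n + 1) ^ 2` and `q s l ^ 4 ≤ C (n + 1)`. -/
def WithinB (P : List Ins) (C : ℝ) (v y : List Bool) : Prop :=
  ∃ t s b q x : ℕ, Nat.log 2 v.length + 1 ≤ s ∧ 0 < q ∧ AcceptsAt P v y t ∧ t < 2 ^ (q * s) ∧
    (∀ u ≤ t, ∀ i, (conf P v y u).2 i < 2 ^ s) ∧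
    (∀ u ≤ t, ∀ z, regA P (conf P v y u) = some z → z < 2 ^ b) ∧ InBlocks P v y q x t ∧
    (x : ℝ) * s * ((b : ℝ) + ((Nat.log 2 v.length : ℝ) + 1)) ^ 4 ≤ C * ((v.length : ℝ) + 1) ^ 2 ∧
    (q : ℝ) * s * ((b : ℝ) + ((Nat.log 2 v.length : ℝ) + 1)) ^ 4 ≤ C * ((v.length : ℝ) + 1)

/-- PRC (helper31). Programs on the words `F w` are cell machines: the state is (number of the next
instruction, fixed registers with the numbers in the program, `n`, number of the last register which
was accessed, number of the last letter); the cells are the registers; the virtual letters `2 u` are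
the letters of `F w`, the virtual letters `2 u + 1` those of `y` (with `ad n (2 u) = D.pos n u`,
`ad n (2 u + 1) = u`). Compare `Pool/Agent/Helper81/RR/Mach.lean`, `Pool/Agent/Helper92/RE/Mach.lean`. With
`D = q` for the cells and windows of `q` letters (take blocks and windows of `2 q`, or only multiples):
`chg ≤ K (x + 1)`. -/
def GoalPRC : Prop := ∀ (P : List Ins) {D : LD} {F : List Bool → List Bool}, D.Is F →
  ∃ N : CM, (∀ w y t, N.AcceptsAt w y t → ∃ t', AcceptsAt P (F w) y t') ∧
    ∀ (b₀ : ℕ) (C : ℝ), (∀ w, (F w).length ≤ b₀ * (w.length + 1)) →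
      (∀ w, w.length ≤ (F w).length) → ∃ C' : ℝ, ∀ w y : List Bool,
        WithinB P C (F w) y → N.Within C' w y

end Pool.Agent.Helper53.UV
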