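import Pool.Agent.Helper53.UV.HUB
import Pool.Agent.Helper53.UV.Cell
import Pool.Agent.Helper53.UR.Reg
import Pool.Agent.Helper53.UR.Time
import Pool.Agent.Helper88.URE.Sim
import Pool.Agent.Helper92.KR.Hub2

/-!
# PROJECT UR2 (MP_c578c8_lc): regular expressions
-/

namespace Pool.Agent.Helper53.UV

open Pool.Agent.Helper65.LinSpace Pool.Agent.Helper78.Mpc
open Pool.Agent.Helper1.TE (USPACE)
open Pool.Agent.Helper65.BR (BM)
open Pool.Agent.Helper81.Gen4 (Q Q_mono)
open Pool.Agent.Helper31.Gen5 (Hard)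
open Pool.Agent.Helper81.RP (Ins conf)
open Pool.Agent.Helper92.KR (Coded)
open Pool.Agent.Helper92.RE (enc Universal NonUniversal LD Loc half_of_hard finite_of_hard InTime
  hard_adv)
open Pool.Agent.Helper81.UR (WithinP prg_within prg_sound)
open Pool.Agent.Helper31.SB (idD idD_is)
open Pool.Agent.Helper53.UR (RedOK WithinU within_time)
open Pool.Agent.Helper31.TMS (AcceptsAt)

/-- The conclusion of FNV. -/
def FnvOK : Prop := ∀ (A : BM) (C : ℝ),
  (∃ e n₀ : ℕ, ∀ w y : List Bool, n₀ ≤ w.length →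
    (∀ T < NFV (num w), accV e (num w) (num y) T ≠ 0 → ∃ p r, A.AcceptsAt w y p r) ∧
    (WithinU A C w y → ∃ T < NFV (num w), accV e (num w) (num y) T ≠ 0)) ∧
  ∃ e n₀ : ℕ, ∀ w y : List Bool, n₀ ≤ w.length →
    (∀ T < NFV (num w), accV e (num w) (num y) T ≠ 0 → ∃ p r, A.AcceptsAt w y p r) ∧
    (WithinV A C w y → ∃ T < NFV (num w), accV e (num w) (num y) T ≠ 0)

/-- The conclusion of TMC. -/
def TmcOK : Prop := ∀ (M : TM 1) {D : LD} {F : List Bool → List Bool}, D.Is F →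
  ∃ N : CM, (∀ w y t, N.AcceptsAt w y t → ∃ t', AcceptsAt M (F w ++ y) t') ∧
    ∀ C : ℝ, ∃ C' : ℝ, ∀ (w y : List Bool) (t : ℕ),
      AcceptsAt M (F w ++ y) t →
      (t : ℝ) ≤ C * ((w.length : ℝ) + 1) ^ 3 / ((Nat.log 2 w.length : ℝ) + 1) ^ 9 →
      N.Within C' w y

/-- Programs on the words `F w`. -/
theorem coded_prgF (h : FnvOK) {D : LD} {F : List Bool → List Bool} (hF : D.Is F) {b₀ : ℕ}
    (hlen : ∀ w, (F w).length ≤ b₀ * (w.length + 1)) (hle : ∀ w, w.length ≤ (F w).length)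
    (P : List Ins) (C : ℝ) :
    Coded accV NFV (fun w y => ∃ t, Pool.Agent.Helper81.RP.AcceptsAt P (F w) y t)
      (fun w y => WithinP P C (F w) y) := by
  obtain ⟨C', hC'⟩ := prg_within hF hlen hle P C
  obtain ⟨e, n₀, he⟩ := (h (Pool.Agent.Helper81.IC.mach D P) C').1
  refine ⟨e, n₀, fun w y hw => ⟨fun T hT hne => ?_, fun hw' => ?_⟩⟩
  · exact prg_sound hF P ((he w y hw).1 T hT hne)
  · exact (he w y hw).2 (hC' w y hw')

theorem coded_prg (h : FnvOK) (P : List Ins) (C : ℝ) :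
    Coded accV NFV (fun w y => ∃ t, Pool.Agent.Helper81.RP.AcceptsAt P w y t) (WithinP P C) :=
  coded_prgF h idD_is (b₀ := 1) (fun w => by simp) (fun w => le_rfl) P C

/-- Turing machines with one work tape on the words `F w ++ y`. -/
theorem coded_tm (h : FnvOK) (hC : GoalCMB) (hT : TmcOK) {D : LD} {F : List Bool → List Bool}
    (hF : D.Is F) (M : TM 1) (C : ℝ) :
    Coded accV NFV (fun w y => ∃ t, AcceptsAt M (F w ++ y) t)
      (fun w y => ∃ t : ℕ, AcceptsAt M (F w ++ y) t ∧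
        (t : ℝ) ≤ C * ((w.length : ℝ) + 1) ^ 3 / ((Nat.log 2 w.length : ℝ) + 1) ^ 9) := by
  obtain ⟨N, h1, h2⟩ := hT M hF
  obtain ⟨A, h3, h4⟩ := hC N
  obtain ⟨C₁, h5⟩ := h2 C
  obtain ⟨C₂, h6⟩ := h4 C₁
  obtain ⟨e, n₀, he⟩ := (h A C₂).2
  refine ⟨e, n₀, fun w y hw => ⟨fun T hT hne => ?_, ?_⟩⟩
  · obtain ⟨t, ht⟩ := h3 w y ((he w y hw).1 T hT hne)
    exact h1 w y t ht
  · rintro ⟨t, ht, htC⟩
    exact (he w y hw).2 (h6 w y (h5 w y t ht htC))

/-- Only short words `y` matter. -/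
theorem hard_short {L : Set (List Bool)} {c : ℕ} (hc : 0 < c)
    {Acc Good Good' : List Bool → List Bool → Prop}
    (h : Hard L c Acc Good ∧ Hard L c (fun w α => Q (c * w.length) fun v => Acc w (α ++ v))
      (fun w α => Q (c * w.length) fun v => Good w (α ++ v)))
    (h2 : ∀ w y : List Bool, y.length ≤ 4 * c * w.length → Good' w y → Good w y) :
    Hard L c Acc Good' ∧ Hard L c (fun w α => Q (c * w.length) fun v => Acc w (α ++ v))
      (fun w α => Q (c * w.length) fun v => Good' w (α ++ v)) := by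
  constructor
  · refine hard_adv hc h.1 0 fun w α _ hα hG => h2 w α (hα.trans ?_) hG
    nlinarith [Nat.zero_le (c * w.length)]
  · refine hard_adv hc h.2 0 fun w α _ hα hG => ?_
    refine Q_mono (fun x u y hx hu hy h8 => h2 w _ ?_ h8) hG
    simp only [List.length_append, hx, hu, hy]
    have : 4 * c * w.length = c * w.length + (c * w.length + (c * w.length + c * w.length)) := by
      ring
    omega

/-- The arithmetic of the time bound. -/
theorem time_le {b c : ℕ} {C : ℝ} {n N t : ℕ} (h1 : n ≤ N) (h2 : N ≤ (b + 4 * c) * (n + 1))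
    (h : (t : ℝ) ≤ C * ((N : ℝ) + 1) ^ 3 / ((Nat.log 2 N : ℝ) + 1) ^ 9) :
    (t : ℝ) ≤ (|C| * ((b : ℝ) + 4 * c + 1) ^ 3) * ((n : ℝ) + 1) ^ 3 /
      ((Nat.log 2 n : ℝ) + 1) ^ 9 := by
  have h3 : ((N : ℝ) + 1) ≤ ((b : ℝ) + 4 * c + 1) * ((n : ℝ) + 1) := by
    have h4 : ((N : ℕ) : ℝ) ≤ (((b + 4 * c) * (n + 1) : ℕ) : ℝ) := by exact_mod_cast h2
    push_cast at h4
    nlinarith [Nat.cast_nonneg (α := ℝ) n]
  have h5 : ((N : ℝ) + 1) ^ 3 ≤ (((b : ℝ) + 4 * c + 1) * ((n : ℝ) + 1)) ^ 3 :=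
    pow_le_pow_left₀ (by positivity) h3 3
  have h6 : ((Nat.log 2 n : ℝ) + 1) ^ 9 ≤ ((Nat.log 2 N : ℝ) + 1) ^ 9 := by
    refine pow_le_pow_left₀ (by positivity) ?_ 9
    have : (Nat.log 2 n : ℝ) ≤ Nat.log 2 N := by exact_mod_cast Nat.log_mono_right h1
    linarith
  have h7 : (0 : ℝ) < ((Nat.log 2 n : ℝ) + 1) ^ 9 := by positivity
  have h8 : (0 : ℝ) < ((Nat.log 2 N : ℝ) + 1) ^ 9 := by positivity
  refine h.trans ?_
  calc C * ((N : ℝ) + 1) ^ 3 / ((Nat.log 2 N : ℝ) + 1) ^ 9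
      ≤ |C| * ((N : ℝ) + 1) ^ 3 / ((Nat.log 2 N : ℝ) + 1) ^ 9 :=
        div_le_div_of_nonneg_right (mul_le_mul_of_nonneg_right (le_abs_self C) (by positivity))
          h8.le
    _ ≤ |C| * ((N : ℝ) + 1) ^ 3 / ((Nat.log 2 n : ℝ) + 1) ^ 9 :=
        div_le_div_of_nonneg_left (by positivity) h7 h6
    _ ≤ |C| * (((b : ℝ) + 4 * c + 1) * ((n : ℝ) + 1)) ^ 3 / ((Nat.log 2 n : ℝ) + 1) ^ 9 :=
        div_le_div_of_nonneg_right (mul_le_mul_of_nonneg_left h5 (abs_nonneg C)) h7.le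
    _ = _ := by ring

/-- The time bound `C n ^ 3 / log ^ 9 n`. -/
noncomputable def T3 (C : ℝ) (n : ℕ) : ℝ :=
  C * ((n : ℝ) + 1) ^ 3 / ((Nat.log 2 n : ℝ) + 1) ^ 9

/-- Turing machines with one work tape. -/
theorem hard_tm (h : FnvOK) (hCM : GoalCMB) (hT : TmcOK) {L : Set (List Bool)} {c : ℕ}
    (hc : 0 < c) (h3 : ∀ Acc Good : List Bool → List Bool → Prop, Coded accV NFV Acc Good →
      Hard L c Acc Good ∧ Hard L c (fun w α => Q (c * w.length) fun v => Acc w (α ++ v))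
        (fun w α => Q (c * w.length) fun v => Good w (α ++ v)))
    {D : LD} {F : List Bool → List Bool} (hF : D.Is F) {b : ℕ}
    (hlen : ∀ w, (F w).length ≤ b * (w.length + 1)) (hle : ∀ w, w.length ≤ (F w).length)
    (M : TM 1) (C : ℝ) :
    Hard L c (fun w α => ∃ t, AcceptsAt M (F w ++ α) t) (fun w α => InTime M (T3 C) (F w ++ α)) ∧
    Hard L c (fun w α => Q (c * w.length) fun v => ∃ t, AcceptsAt M (F w ++ (α ++ v)) t)
      (fun w α => Q (c * w.length) fun v => InTime M (T3 C) (F w ++ (α ++ v))) := by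
  refine hard_short hc (h3 _ _ (coded_tm h hCM hT hF M (|C| * ((b : ℝ) + 4 * c + 1) ^ 3))) ?_
  rintro w y hy ⟨t, ht, htC⟩
  refine ⟨t, ht, time_le (c := c) ?_ ?_ htC⟩
  · rw [List.length_append]
    exact (hle w).trans (Nat.le_add_right _ _)
  · rw [List.length_append]
    have h1 := hlen w
    nlinarith [Nat.zero_le c, Nat.zero_le w.length]

/-- Finiteness of the fast words for Turing machines. -/
theorem finite_tm {L : Set (List Bool)} {c : ℕ} {f : List Bool → RegularExpression Bool}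
    (hf : ∀ w, (f w).matches' = ⊤ ↔ w ∉ L) {U : Set (List Bool)}
    (hU : U = Universal ∨ U = NonUniversal) {M : TM 1} {C : ℝ}
    (h : Hard L c (fun w α => ∃ t, AcceptsAt M (enc (f w) ++ α) t)
      (fun w α => InTime M (T3 C) (enc (f w) ++ α)))
    (hA : ∀ x, (∃ t, AcceptsAt M x t) → x ∈ U) : {w | InTime M (T3 C) (enc (f w))}.Finite := by
  have h1 := finite_of_hard h hf hU fun w hw => hA _ (by simpa using hw)
  simpa using h1

/-- **The theorem**, for programs and for Turing machines with one work tape, on the words `w` and on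
the regular expressions. -/
theorem regV (hub : HubOK) (h : FnvOK) (hCM : GoalCMB) (hT : TmcOK) (hR : RedOK) (c : ℕ)
    (hc : 0 < c) :
    ∃ (L : Set (List Bool)) (f : List Bool → RegularExpression Bool) (b : ℕ),
      L ∈ USPACE (fun n => (n : ℝ)) ∧ Lᶜ ∈ USPACE (fun n => (n : ℝ)) ∧
      LinComp (fun w => enc (f w)) ∧
      (∀ w, w.length ≤ (enc (f w)).length ∧ (enc (f w)).length ≤ b * (w.length + 1)) ∧
      (∀ w, (f w).matches' = ⊤ ↔ w ∉ L) ∧
      (∃ c' : ℝ, ∀ n : ℕ, |({w : List Bool | w.length = n ∧ w ∈ L}.ncard : ℝ) - 2 ^ n / 2| ≤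
        c' * 2 ^ ((n : ℝ) / 2)) ∧
      (∀ F : List Bool → List Bool, F = id ∨ F = (fun w => enc (f w)) →
        (∀ (P : List Ins) (C : ℝ),
          Hard L c (fun w α => ∃ t, Pool.Agent.Helper81.RP.AcceptsAt P (F w) α t)
            (fun w α => WithinP P C (F w) α) ∧
          Hard L c (fun w α => Q (c * w.length) fun v =>
              ∃ t, Pool.Agent.Helper81.RP.AcceptsAt P (F w) (α ++ v) t)
            (fun w α => Q (c * w.length) fun v => WithinP P C (F w) (α ++ v))) ∧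
        ∀ (M : TM 1) (C : ℝ),
          Hard L c (fun w α => ∃ t, AcceptsAt M (F w ++ α) t)
            (fun w α => InTime M (T3 C) (F w ++ α)) ∧
          Hard L c (fun w α => Q (c * w.length) fun v => ∃ t, AcceptsAt M (F w ++ (α ++ v)) t)
            (fun w α => Q (c * w.length) fun v => InTime M (T3 C) (F w ++ (α ++ v)))) ∧
      ∀ U : Set (List Bool), U = Universal ∨ U = NonUniversal →
        (∀ P : List Ins, (∀ x, (∃ t, Pool.Agent.Helper81.RP.AcceptsAt P x [] t) → x ∈ U) →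
          (∀ C : ℝ, {w | WithinP P C (enc (f w)) []}.Finite) ∧
          ∀ (a : ℕ) (C : ℝ), {w | ∃ t : ℕ,
            Pool.Agent.Helper81.RP.AcceptsAt P (enc (f w)) [] t ∧
            (∀ u ≤ t, ∀ i, (conf P (enc (f w)) [] u).2 i < ((enc (f w)).length + 2) ^ a) ∧
            (t : ℝ) ≤ C * (((enc (f w)).length : ℝ) + 1) ^ 2 /
              ((Nat.log 2 (enc (f w)).length : ℝ) + 1) ^ 5}.Finite) ∧
        ∀ M : TM 1, (∀ x, (∃ t, AcceptsAt M x t) → x ∈ U) →
          ∀ C : ℝ, {w | InTime M (T3 C) (enc (f w))}.Finite := by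
  obtain ⟨L, h1, h2, h3⟩ := hub c hc
  obtain ⟨f, hloc, hle, hf⟩ := hR L h1
  obtain ⟨D, hD, b, hlen⟩ := hloc.exists_ld
  have hlen' : ∀ w, (enc (f w)).length ≤ b * (w.length + 1) := hlen
  have hF : ∀ F : List Bool → List Bool, F = id ∨ F = (fun w => enc (f w)) →
        (∀ (P : List Ins) (C : ℝ),
          Hard L c (fun w α => ∃ t, Pool.Agent.Helper81.RP.AcceptsAt P (F w) α t)
            (fun w α => WithinP P C (F w) α) ∧
          Hard L c (fun w α => Q (c * w.length) fun v =>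
              ∃ t, Pool.Agent.Helper81.RP.AcceptsAt P (F w) (α ++ v) t)
            (fun w α => Q (c * w.length) fun v => WithinP P C (F w) (α ++ v))) ∧
        ∀ (M : TM 1) (C : ℝ),
          Hard L c (fun w α => ∃ t, AcceptsAt M (F w ++ α) t)
            (fun w α => InTime M (T3 C) (F w ++ α)) ∧
          Hard L c (fun w α => Q (c * w.length) fun v => ∃ t, AcceptsAt M (F w ++ (α ++ v)) t)
            (fun w α => Q (c * w.length) fun v => InTime M (T3 C) (F w ++ (α ++ v))) := by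
    rintro F (rfl | rfl)
    · exact ⟨fun P C => h3 _ _ (coded_prg h P C), fun M C =>
        hard_tm h hCM hT hc h3 idD_is (b := 1) (fun w => by simp) (fun w => le_rfl) M C⟩
    · exact ⟨fun P C => h3 _ _ (coded_prgF h hD hlen' hle P C), fun M C =>
        hard_tm h hCM hT hc h3 hD hlen' hle M C⟩
  have hE := hF _ (Or.inr rfl)
  refine ⟨L, f, b, h1, h2, hloc.linComp, fun w => ⟨hle w, hlen w⟩, hf, ?_, hF, fun U hU =>
    ⟨fun P hP => ⟨fun C => ?_, fun a C => ?_⟩, fun M hM C => ?_⟩⟩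
  · refine half_of_hard (c := c) (((hF id (Or.inl rfl)).1 [] 0).1.mono ?_ ?_)
    · rintro w α ⟨t, ht⟩
      have h1 : (none : Option Ins) = some .accept := ht
      exact absurd h1 (by simp)
    · exact fun w α h => h.elim
  · exact finite_of_hard (hE.1 P C).1 hf hU fun w hw => hP _ hw
  · obtain ⟨C', hC'⟩ := within_time P a C
    refine (finite_of_hard (hE.1 P C').1 hf hU fun w hw => hP _ hw).subset ?_
    rintro w ⟨t, ht, hn, hT⟩
    exact hC' _ _ t ht hn hT
  · exact finite_tm hf hU (hE.2 M C).1 hM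

end Pool.Agent.Helper53.UV
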