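import Pool.Agent.Helper53.UR.Tree

/-!
# PROJECT UR2 (MP_c578c8_lc): goals, part B (the call tree)

Deliver `Pool/Agent/<Seat>/UV/XX.lean` with `theorem gXX : GoalXX` (namespace `Pool.Agent.<Seat>.UV`),
imports `Pool.Agent.Helper53.UV.Tree`. The proofs are adaptations of the proofs of project UR with the
same names (`Pool/Agent/Helper4/UR/DGS.lean`, `Helper9/UR/PSS.lean`, `Helper93/UR/SQS.lean`,
`Helper99/UR/TRE.lean`). New: in a read the machine does not see the content `c` of the block but only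
the value `R q c`, smaller than `2 ^ g`, where `q` is the state. The kinds `kd` and the functions
`tb1, dv, pv` are those of project UR.
-/

namespace Pool.Agent.Helper53.UV

open Pool.Agent.Helper65.LinSpace (dig tab nrec ifz eq01 le01 lt01 Ctx LS num)
open Pool.Agent.Helper53.CTG (ev)
open Pool.Agent.Helper53.UR (kd tb1 dv pv)

/-- A machine with a memory of blocks on numbers. In one step the machine in the state `q` reads the
value `v = R q c` of the content `c` of the block `A q`; its new state is `N q v`, and the new content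
of the block `x` is `W q v x c`, where `c` is the old content. -/
structure RM where
  /-- states are smaller than `2 ^ s` -/
  s : ℕ
  /-- contents are smaller than `2 ^ a` -/
  a : ℕ
  /-- names of blocks are smaller than `2 ^ ν` -/
  ν : ℕ
  /-- values which are read are smaller than `2 ^ g` -/
  g : ℕ
  A : ℕ → ℕ
  R : ℕ → ℕ → ℕ
  N : ℕ → ℕ → ℕ
  W : ℕ → ℕ → ℕ → ℕ → ℕ
  q0 : ℕ
  M0 : ℕ → ℕ

/-- The bounds. -/
structure RM.Ok (m : RM) : Prop where
  hA : ∀ q, m.A q < 2 ^ m.ν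
  hR : ∀ q c, m.R q c < 2 ^ m.g
  hN : ∀ q v, m.N q v < 2 ^ m.s
  hW : ∀ q v x c, m.W q v x c < 2 ^ m.a
  hq0 : m.q0 < 2 ^ m.s
  hM0 : ∀ x, m.M0 x < 2 ^ m.a

/-- The state and the contents after `t` steps. -/
def RM.conf (m : RM) : ℕ → ℕ × (ℕ → ℕ)
  | 0 => (m.q0, m.M0)
  | t + 1 => (m.N (m.conf t).1 (m.R (m.conf t).1 ((m.conf t).2 (m.A (m.conf t).1))), fun x =>
      m.W (m.conf t).1 (m.R (m.conf t).1 ((m.conf t).2 (m.A (m.conf t).1))) x ((m.conf t).2 x))

/-- The value which is read in the step `t` of a part, as coded by `Z`. -/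
def vz (m : RM) (Z t : ℕ) : ℕ := dig (2 ^ m.g) (Z / 2 ^ m.s) t

/-- The state after `t` steps of the part which is coded by `Z`. -/
def st (m : RM) (Z t : ℕ) : ℕ := nrec (Z % 2 ^ m.s) (fun t q => m.N q (vz m Z t)) t

/-- The content of the block `x` after `t` steps of the part, `c` being the content at its start. -/
def ct (m : RM) (Z x c t : ℕ) : ℕ := nrec c (fun t c => m.W (st m Z t) (vz m Z t) x c) t

/-- The argument of the left child of a node of kind `k` with the argument `x`. -/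
def tb0 (m : RM) (e k p x : ℕ) : ℕ :=
  ifz k x (ifz (k - 1) x (ifz (k - 2) 0 (ifz (k - 3) x (m.A (st m x (p % 2 ^ e)) + 1))))

/-- The result, if the children return `y` and `z`; `l = 0` for a leaf. -/
def tb2 (m : RM) (e l k p x y z : ℕ) : ℕ :=
  ifz k (ifz l (ifz x m.q0 (m.M0 (x - 1))) (ifz x (st m z (2 ^ e)) (ct m z (x - 1) y (2 ^ e))))
    (ifz (k - 1) y (ifz (k - 2) z (ifz (k - 3) z
      (x + 2 ^ (m.s + m.g * (p % 2 ^ e)) *
        m.R (st m x (p % 2 ^ e)) (ct m x (m.A (st m x (p % 2 ^ e))) y (p % 2 ^ e))))))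

/-- The tables of a tree of height `N`. -/
def tb (m : RM) (e N b mm v x y z : ℕ) : ℕ :=
  ifz mm (tb0 m e (kd e (dv e v) (pv e v)) (pv e v) x)
    (ifz (mm - 1) (tb1 (kd e (dv e v) (pv e v)) y)
      (tb2 m e (N - Nat.log 2 v) (kd e (dv e v) (pv e v)) (pv e v) x y z)) % 2 ^ b

/-- The result of the nodes of height `j * (e + 3)`, `B = 2 ^ e`. -/
def RJ (m : RM) (B j a : ℕ) : ℕ := ifz a (m.conf (j * B)).1 ((m.conf (j * B)).2 (a - 1))

/-- The code of the first `t` steps of the part `j`. -/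
def ZD (m : RM) (B j t : ℕ) : ℕ :=
  (m.conf (j * B)).1 + 2 ^ m.s * tab (2 ^ m.g) t fun r =>
    m.R (m.conf (j * B + r)).1 ((m.conf (j * B + r)).2 (m.A (m.conf (j * B + r)).1))

/-! ### Goals -/

/-- DGS (digests). As `Pool/Agent/Helper4/UR/DGS.lean`. -/
def GoalDGS : Prop := ∀ (m : RM), m.Ok → ∀ B j t' : ℕ, ZD m B j t' < 2 ^ (m.s + m.g * t') ∧
  ZD m B j 0 = (m.conf (j * B)).1 ∧
  (∀ t ≤ t', st m (ZD m B j t') t = (m.conf (j * B + t)).1 ∧
    ∀ x, ct m (ZD m B j t') x ((m.conf (j * B)).2 x) t = (m.conf (j * B + t)).2 x) ∧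
  ZD m B j (t' + 1) = ZD m B j t' + 2 ^ (m.s + m.g * t') *
    m.R (m.conf (j * B + t')).1 ((m.conf (j * B + t')).2 (m.A (m.conf (j * B + t')).1))

/-- The bounds for the tree. -/
structure TOk (m : RM) (e K b c : ℕ) : Prop where
  hm : m.Ok
  hK : 1 ≤ K
  hc : c ≤ b
  hν : m.ν < c
  hb : m.s + m.g * 2 ^ e ≤ b
  ha : m.a ≤ b

/-- The nodes of height `j * (e + 3)` return the right values. -/
def Lev (m : RM) (e K b c j : ℕ) : Prop := ∀ v, v ≠ 0 →
  Nat.log 2 v + j * (e + 3) = K * (e + 3) → ∀ a < 2 ^ c,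
    ev (tb m e (K * (e + 3)) b) (e + 3) c (j * (e + 3)) v a = RJ m (2 ^ e) j a

/-- PSS (passing nodes). As `Pool/Agent/Helper9/UR/PSS.lean`. -/
def GoalPSS : Prop := Pool.Agent.Helper53.UR.GoalKND →
  ∀ (m : RM) (e K b c j : ℕ), TOk m e K b c → Lev m e K b c j →
  ∀ i, 1 ≤ i → i ≤ e + 2 → ∀ v, v ≠ 0 → Nat.log 2 v + (j * (e + 3) + i) = K * (e + 3) →
    kd e (dv e v) (pv e v) = 1 → ∀ x < 2 ^ c,
      ev (tb m e (K * (e + 3)) b) (e + 3) c (j * (e + 3) + i) v x = RJ m (2 ^ e) j x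

/-- The conclusion of PSS. -/
def PassOK : Prop := ∀ (m : RM) (e K b c j : ℕ), TOk m e K b c → Lev m e K b c j →
  ∀ i, 1 ≤ i → i ≤ e + 2 → ∀ v, v ≠ 0 → Nat.log 2 v + (j * (e + 3) + i) = K * (e + 3) →
    kd e (dv e v) (pv e v) = 1 → ∀ x < 2 ^ c,
      ev (tb m e (K * (e + 3)) b) (e + 3) c (j * (e + 3) + i) v x = RJ m (2 ^ e) j x

/-- SQS (sequences and steps). As `Pool/Agent/Helper93/UR/SQS.lean`; the left child of a step returns
the content of the block at the start of the part, which is smaller than `2 ^ a ≤ 2 ^ b`; the result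
`ZD (t + 1)` is smaller than `2 ^ (s + g (t + 1)) ≤ 2 ^ b`. -/
def GoalSQS : Prop := Pool.Agent.Helper53.UR.GoalKND → GoalDGS →
  ∀ (m : RM) (e K b c j : ℕ), TOk m e K b c →
  Lev m e K b c j → ∀ i ≤ e, ∀ v, v ≠ 0 →
    Nat.log 2 v + (j * (e + 3) + i + 1) = K * (e + 3) → pv e v / 2 ^ (e - i) = 3 →
    ev (tb m e (K * (e + 3)) b) (e + 3) c (j * (e + 3) + i + 1) v
        (ZD m (2 ^ e) j (pv e v % 2 ^ (e - i) * 2 ^ i)) =
      ZD m (2 ^ e) j (pv e v % 2 ^ (e - i) * 2 ^ i + 2 ^ i)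

/-- The conclusion of SQS. -/
def SeqOK : Prop := ∀ (m : RM) (e K b c j : ℕ), TOk m e K b c →
  Lev m e K b c j → ∀ i ≤ e, ∀ v, v ≠ 0 →
    Nat.log 2 v + (j * (e + 3) + i + 1) = K * (e + 3) → pv e v / 2 ^ (e - i) = 3 →
    ev (tb m e (K * (e + 3)) b) (e + 3) c (j * (e + 3) + i + 1) v
        (ZD m (2 ^ e) j (pv e v % 2 ^ (e - i) * 2 ^ i)) =
      ZD m (2 ^ e) j (pv e v % 2 ^ (e - i) * 2 ^ i + 2 ^ i)

/-- TRE (the tree). As `Pool/Agent/Helper99/UR/TRE.lean`. -/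
def GoalTRE : Prop := Pool.Agent.Helper53.UR.GoalKND → GoalDGS → PassOK → SeqOK →
  (∀ (m : RM) (e K b c : ℕ), TOk m e K b c → ∀ j ≤ K, Lev m e K b c j) ∧
  ∀ (m : RM) (e K b c : ℕ), TOk m e K b c →
    ev (tb m e (K * (e + 3)) b) (e + 3) c (K * (e + 3)) 1 0 = (m.conf (K * 2 ^ e)).1

end Pool.Agent.Helper53.UV
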